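import Pool.Agent.Y149.PK.Defs

/-!
# Products with modular curves: definitions

`X` is a smooth projective variety over `ℚ` and `Y` runs through the curves over `ℚ` whose Jacobian is
a product of factors of the Jacobians of the modular curves `X_0(N)`, for example through all
`X_0(N)`.  The files are about the `L`-functions of the cohomology groups of `X × Y` at the edge; for
`H^{2m}` this is the point `s = m + 1` in the conjecture of Tate.
-/

set_option autoImplicit false

namespace Pool.Agent.D0H32.MC

open Filter Topology Polynomial CongruenceSubgroup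
open scoped MatrixGroups
open Pool.Agent.Y149.CM (kunneth LFun)
open Pool.Agent.Y149.PK (Variety IsEuler HasOrder size tens evenPart)
open Pool.Agent.W165.RS (ac)

/-- A family of newforms of weight two: `form i` is a cusp form of weight two on `Γ₀(level i)` with
Fourier coefficients `c(n) = ac (form i) n` and with the following properties of a newform
(`Pool.Agent.TH941.Hecke`): the `c(n)` are real, `c(1) = 1`, `c(m n) = c(m) c(n)` for coprime `m, n`,
`c(p^{j+2}) = c(p) c(p^{j+1}) - p c(p^j)` (without the last term if `p` divides the level), and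
`|c(p)| ≤ 2 √p`, and `|c(p)| ≤ 1` if `p` divides the level.  Different members of the family have
different coefficients at some prime which does not divide the levels.  By the theorems of
Atkin-Lehner, Eichler-Shimura and Weil (and strong multiplicity one) the family of ALL newforms of
weight two with trivial character, of all levels and with arbitrary coefficient fields, has these
properties. -/
structure Newforms (ι : Type) where
  level : ι → ℕ
  level_pos : ∀ i, 0 < level i
  form : ∀ i, CuspForm (Gamma0 (level i) : Subgroup (GL (Fin 2) ℝ)) 2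
  hecke : ∀ i, Pool.Agent.TH941.Hecke (form i)
  distinct : ∀ i j, i ≠ j → ∃ p : ℕ, p.Prime ∧ ¬ p ∣ level i ∧ ¬ p ∣ level j ∧
    ac (form i) p ≠ ac (form j) p

section
variable {ι : Type}

/-- The eigenvalues of Frobenius at `p` on the two-dimensional Galois representation `V_i` of the
newform `form i`: the roots of `T² - c(p) T + p`. -/
noncomputable def frobF (F : Newforms ι) (i : ι) (p : ℕ) : Multiset ℂ :=
  (X ^ 2 - C (ac (F.form i) p) * X + C (p : ℂ)).roots

/-- The eigenvalues of Frobenius at `p` on `H^0`, `H^1`, `H^2` of a curve `Y` with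
`H^1(Y) = ⊕ V_i^{m_i}`, that is, whose Jacobian is isogenous to the product of the abelian varieties
of Shimura of the newforms with these multiplicities. -/
noncomputable def frobY (F : Newforms ι) (m : ι →₀ ℕ) (p : ℕ) : ℕ → Multiset ℂ
  | 0 => {1}
  | 1 => m.sum fun i k => k • frobF F i p
  | 2 => {(p : ℂ)}
  | _ => 0

/-- `∑ m_i²`: the rank of the ring of the endomorphisms (over `ℚ`) of the Jacobian of `Y`. -/
def rankEnd (m : ι →₀ ℕ) : ℕ := m.sum fun _ k => k ^ 2

/-- `B` are the Euler factors of `L(H^n(X × Y), s)`, `Y` a curve with `H^1(Y) = ⊕ V_i^{m_i}`. -/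
def IsProduct (X : Variety) (F : Newforms ι) (m : ι →₀ ℕ) (n : ℕ) (B : Nat.Primes → ℂ[X]) : Prop :=
  IsEuler n (fun p => kunneth (X.frob p) (frobY F m p) n) B

/-- `B` are the Euler factors of `L(H^n(X) ⊗ V_i, s)`, of weight `n + 1`. -/
def IsTwist (X : Variety) (F : Newforms ι) (i : ι) (n : ℕ) (B : Nat.Primes → ℂ[X]) : Prop :=
  IsEuler (n + 1) (fun p => tens (X.frob p n) (frobF F i p)) B

/-- For all `n`, `A n` are the Euler factors of `L(H^n(X), s)`. -/
def IsBase (X : Variety) (A : ℕ → Nat.Primes → ℂ[X]) : Prop :=
  ∀ n, IsEuler n (fun p => X.frob p n) (A n)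

/-- `q` is at least the square of the `n`-th Betti number of `X`, or `L(H^n(X) ⊗ H^n(X), s)` has a pole
of order `q` at the edge point `s = n + 1` (conjecturally `q` is then the dimension of the algebra of
the Galois-equivariant endomorphisms of `H^n(X)`, and `1` if `H^n(X)` is absolutely irreducible). -/
def SelfBound (X : Variety) (n q : ℕ) : Prop :=
  X.betti n ^ 2 ≤ q ∨ ∃ B : Nat.Primes → ℂ[X],
    IsEuler (2 * n) (fun p => tens (X.frob p n) (X.frob p n)) B ∧ HasOrder (2 * n) B (-(q : ℤ))

/-- The size of `L(H^n(X × Y))` minus the sizes of `L(H^n(X))` and (for `n ≥ 2`) `L(H^{n-2}(X))`, that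
is, the size of `L(H^{n-1}(X) ⊗ H^1(Y), s)` at the edge; `B` are the Euler factors for `X × Y` and
`A c` those for `H^c(X)`. -/
noncomputable def excess (n : ℕ) (B : Nat.Primes → ℂ[X]) (A : ℕ → Nat.Primes → ℂ[X]) (ε : ℝ) : ℝ :=
  size n B ε - evenPart (fun c => size c (A c) ε) 1 n

/-- `H^1(X_0(N)) = ⊕ V_i^{m_i}`, with the number `m_i` of the divisors of `N / level i` if the level
divides `N`, and `m_i = 0` otherwise (if the family is the family of all newforms). -/
def IsX0 (F : Newforms ι) (N : ℕ) (m : ι →₀ ℕ) : Prop :=
  ∀ i, m i = if F.level i ∣ N then (N / F.level i).divisors.card else 0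

/-- The number of the newforms of level `M`. -/
noncomputable def newCount (F : Newforms ι) (M : ℕ) : ℕ := Nat.card {i // F.level i = M}

end

end Pool.Agent.D0H32.MC
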