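import Pool.Agent.Y149.PK.Main
import Pool.Agent.D0H32.MC.Defs

/-! One-sided orthogonality of newforms and Bessel's inequality. -/

set_option autoImplicit false

open Finset Filter Topology Complex Polynomial

namespace Pool.Agent.D0H32.MC

open Pool.Agent.H341R2 (E lam lam_tendsto lam_bounded)
open Pool.Agent.Y149.LN (normSysP E_eq_EP bessel_D)
open Pool.Agent.Y149.PK (Variety IsEuler HasOrder size tens VG ZZ ZZ_le ZZ_eq lam_pos E_one E_smul
  abs_E_le frobenius_VG log_gen E_of_order GG TG TG_eq tens_sum tens_local norm_nt_le)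
open Pool.Agent.Y149.CM (LFun kunneth nt)
open Pool.Agent.Y722.EP (Sys E_sq_le)
open Pool.Agent.Y722.RS (S2 rc tt tt_le cross_le self_le rc_eq)
open Pool.Agent.W540.BE (EP)
open Pool.Agent.W165.RS (ac)

section
variable {ι : Type} (F : Newforms ι)

/-- the normalised coefficients -/
noncomputable def tn (i : ι) (p : Nat.Primes) : ℝ := tt (F.form i) p

theorem tn_le (i : ι) (p : Nat.Primes) : |tn F i p| ≤ 2 := by
  have : NeZero (F.level i) := ⟨(F.level_pos i).ne'⟩
  exact tt_le (F.hecke i) p.2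

theorem sys_newforms (J : Finset ι) : Sys J (tn F) := by
  refine ⟨fun i _ p => tn_le F i p, fun i _ => ?_, fun i _ j _ hij => ?_⟩
  · have : NeZero (F.level i) := ⟨(F.level_pos i).ne'⟩
    exact self_le (F.hecke i)
  · have : NeZero (F.level i) := ⟨(F.level_pos i).ne'⟩
    have : NeZero (F.level j) := ⟨(F.level_pos j).ne'⟩
    obtain ⟨p, hp, h1, h2, h3⟩ := F.distinct i j hij
    refine cross_le (F.hecke i) (F.hecke j) hp h1 h2 fun h => h3 ?_
    rw [rc_eq (F.hecke i).real, rc_eq (F.hecke j).real, h]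

/-- **Bessel's inequality for newforms**, for each sign. -/
theorem bessel_newforms (J : Finset ι) (Q : Nat.Primes → ℝ) {b q : ℝ} (hQ : ∀ p, |Q p| ≤ b)
    (hq : ∀ η : ℝ, 0 < η → ∀ᶠ ε : ℝ in 𝓝[>] 0, E ε (fun p => Q p ^ 2) / lam ε ≤ q + η)
    {s : ℝ} (hs : s = 1 ∨ s = -1) {η : ℝ} (hη : 0 < η) :
    ∀ᶠ ε : ℝ in 𝓝[>] 0, ∑ i ∈ J, (max (s * (E ε (fun p => Q p * tn F i p) / lam ε)) 0) ^ 2 ≤
      q + η := by
  classical
  have hs1 : s ^ 2 = 1 := by rcases hs with rfl | rfl <;> norm_num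
  have hsa : |s| = 1 := by rcases hs with rfl | rfl <;> norm_num
  have hlam1 : Tendsto (fun ε : ℝ => EP (fun p : Nat.Primes => (p : ℕ)) ε (fun _ => 1) / lam ε)
      (𝓝[>] 0) (𝓝 1) := by
    refine tendsto_const_nhds.congr' ?_
    filter_upwards [lam_pos] with ε hε
    have e : EP (fun p : Nat.Primes => (p : ℕ)) ε (fun _ => 1) = lam ε := E_one ε
    rw [e, div_self hε.ne']
  have h1 := bessel_D normSysP lam_tendsto hlam1 J (fun i p => (tn F i p : ℂ))
    (fun p => s * Q p) (bu := 2) (bT := b) (D := 1) one_pos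
    (fun i p => by rw [Complex.norm_real, Real.norm_eq_abs]; exact tn_le F i p)
    (fun p => by rw [abs_mul, hsa, one_mul]; exact hQ p) (fun B => by
      obtain ⟨C, _, hC⟩ := E_sq_le (sys_newforms F J) B
      obtain ⟨C3, hC3⟩ := lam_bounded
      refine ⟨C + (∑ _i ∈ J, B ^ 2) * |C3|, ?_⟩
      filter_upwards [hC, hC3] with ε g1 g2 c hc
      have g3 := g1 c hc
      have e1 : (EP (fun p : Nat.Primes => (p : ℕ)) ε fun p =>
          ‖∑ a ∈ J, (c a : ℂ) * (tn F a p : ℂ)‖ ^ 2) =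
          E ε fun p => (∑ i ∈ J, c i * tn F i p) ^ 2 := by
        rw [E_eq_EP]
        congr 1
        funext p
        have e3 : (∑ a ∈ J, (c a : ℂ) * (tn F a p : ℂ)) =
            ((∑ i ∈ J, c i * tn F i p : ℝ) : ℂ) := by push_cast; rfl
        rw [e3, Complex.norm_real, Real.norm_eq_abs, sq_abs]
      rw [e1, one_mul]
      refine g3.trans ?_
      have h5 : ∑ i ∈ J, c i ^ 2 ≤ ∑ _i ∈ J, B ^ 2 := Finset.sum_le_sum fun i hi =>
        pow_le_pow_left₀ (hc i hi).1 (hc i hi).2 2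
      have h6 : 0 ≤ ∑ i ∈ J, c i ^ 2 := Finset.sum_nonneg fun i _ => sq_nonneg _
      have h7 : Real.log (1 / ε) ≤ lam ε + |C3| := by
        rw [one_div, Real.log_inv]
        have := (abs_le.1 g2).1
        have := le_abs_self C3
        linarith
      calc (∑ i ∈ J, c i ^ 2) * Real.log (1 / ε) + C
          ≤ (∑ i ∈ J, c i ^ 2) * (lam ε + |C3|) + C :=
            add_le_add_left (mul_le_mul_of_nonneg_left h7 h6) _
        _ = (∑ i ∈ J, c i ^ 2) * lam ε + (C + (∑ i ∈ J, c i ^ 2) * |C3|) := by ring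
        _ ≤ _ := by
            have := mul_le_mul_of_nonneg_right h5 (abs_nonneg C3)
            linarith)
    (fun i ε => s * (E ε (fun p => Q p * tn F i p) / lam ε)) (fun i _ => by
      refine tendsto_const_nhds.congr fun ε => ?_
      have e2 : EP (fun p : Nat.Primes => (p : ℕ)) ε (fun p => s * Q p * (tn F i p : ℂ).re) =
          s * E ε (fun p => Q p * tn F i p) := by
        rw [← E_smul]
        congr 1
        funext p
        rw [Complex.ofReal_re]
        ring
      rw [e2]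
      ring) (η := η / 2) (by positivity)
  filter_upwards [h1, hq (η / 2) (by positivity)] with ε g1 g2
  refine g1.trans ?_
  have e3 : (EP (fun p : Nat.Primes => (p : ℕ)) ε fun p => (s * Q p) ^ 2) =
      E ε (fun p => Q p ^ 2) := by
    rw [E_eq_EP]
    congr 1
    funext p
    rw [mul_pow, hs1, one_mul]
  rw [e3, one_mul]
  linarith

end

/-! ### The traces of the fixed variety -/

/-- the mean square of the traces is at most `q` -/
def QB (N : ℕ → ℕ) (β : Nat.Primes → ℕ → Multiset ℂ) (n : ℕ) (q : ℝ) : Prop :=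
  ∀ η : ℝ, 0 < η → ∀ᶠ ε : ℝ in 𝓝[>] 0, E ε (fun p => ZZ N β n p ^ 2) / lam ε ≤ q + η

theorem QB_betti (N : ℕ → ℕ) (β : Nat.Primes → ℕ → Multiset ℂ) (n : ℕ) :
    QB N β n ((N n : ℝ) ^ 2) := by
  intro η hη
  have hb : ∀ p, |ZZ N β n p ^ 2| ≤ (N n : ℝ) ^ 2 := fun p => by
    rw [abs_pow]
    exact pow_le_pow_left₀ (abs_nonneg _) (ZZ_le N β n p) 2
  filter_upwards [lam_pos, self_mem_nhdsWithin] with ε h1 h2
  have hε : (0 : ℝ) < ε := h2
  rw [div_le_iff₀ h1]
  refine (le_abs_self _).trans ((abs_E_le hε hb).trans ?_)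
  refine mul_le_mul_of_nonneg_right ?_ h1.le
  linarith

section
variable (X : Variety)

theorem X_VG : ∀ᶠ p : Nat.Primes in cofinite, VG X.betti p (X.frob p) :=
  X.good.mono fun _ h => frobenius_VG h.1 fun a => (h.2.2 a).le

theorem X_GG : ∀ᶠ p : Nat.Primes in cofinite, GG X.betti p (X.frob p) :=
  X.good.mono fun _ h => ⟨frobenius_VG h.1 fun a => (h.2.2 a).le, h.2.1⟩

theorem zz_nt {p : Nat.Primes} (h : GG X.betti p (X.frob p)) (a : ℕ) :
    nt p (X.frob p) a = ((ZZ X.betti X.frob a p : ℝ) : ℂ) := by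
  have h1 := TG_eq (N := X.betti) (γ := fun _ : Unit => X.frob) (e := ()) h a
  rw [h1]
  unfold TG ZZ
  rw [if_pos h, if_pos h.1]

/-- the mean square of the traces -/
theorem QB_self {a q : ℕ} (hq : SelfBound X a q) : QB X.betti X.frob a q := by
  rcases hq with h | ⟨B, hB, hr⟩
  · intro η hη
    have h3 : ((X.betti a : ℝ)) ^ 2 ≤ q := by exact_mod_cast h
    exact (QB_betti X.betti X.frob a η hη).mono fun ε h => by linarith
  · intro η hη
    have hb : ∀ p, |ZZ X.betti X.frob a p ^ 2| ≤ (X.betti a : ℝ) ^ 2 := fun p => by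
      rw [abs_pow]
      exact pow_le_pow_left₀ (abs_nonneg _) (ZZ_le X.betti X.frob a p) 2
    have h1 := E_of_order (log_gen hB (Mb := X.betti a * X.betti a)
      (φ := fun p => ZZ X.betti X.frob a p ^ 2) (C0 := (X.betti a : ℝ) ^ 2) ?_ hb ?_) hr
    · obtain ⟨C, hC⟩ := h1
      have h2 : Tendsto (fun ε : ℝ => C / lam ε) (𝓝[>] 0) (𝓝 0) := lam_tendsto.const_div_atTop C
      filter_upwards [hC, lam_pos, h2.eventually_lt_const hη] with ε g1 g2 g3
      have g4 := (abs_le.1 g1).2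
      rw [div_lt_iff₀ g2] at g3
      rw [div_le_iff₀ g2]
      push_cast at g4
      linarith
    · exact (X_VG X).mono fun p hp => tens_local hp hp a
    · refine (X_GG X).mono fun p hp => ?_
      rw [tens_sum, zz_nt X hp, ← Complex.ofReal_mul, Complex.ofReal_re, sq]

end

end Pool.Agent.D0H32.MC
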