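import Pool.Agent.D0H32.MC.Core

/-! From the `L`-functions of the products to the functions on the primes. -/

set_option autoImplicit false

open Finset Filter Topology Complex Polynomial

namespace Pool.Agent.D0H32.MC

open Pool.Agent.H341R2 (E lam lam_tendsto lam_bounded)
open Pool.Agent.Y149.PK (Variety IsEuler HasOrder size tens VG ZZ ZZ_le ZZ_eq lam_pos E_one E_smul
  E_add' E_fsum abs_E_le log_gen link_base link_prod size_sub size_order PP PP_le bnd frobProd
  evenPart evenPart_succ bnd_even)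
open Pool.Agent.Y149.CM (LFun kunneth nt exists_uv sum_product)
open Pool.Agent.Y722.EP (finite_dvd)
open Pool.Agent.Y722.RS (S2 rc tt tt_le rc_eq)
open Pool.Agent.W165.RS (ac)

section
variable {ι : Type} (F : Newforms ι)

theorem frobF_pair (i : ι) (p : Nat.Primes) : ∃ u v : ℂ,
    frobF F i p = {u, v} ∧ u + v = ((rc (F.form i) p : ℝ) : ℂ) ∧
    ‖u‖ = Real.sqrt (p : ℕ) ∧ ‖v‖ = Real.sqrt (p : ℕ) := by
  have hp0 : (0 : ℝ) < (p : ℕ) := by exact_mod_cast p.2.pos
  have hs : 0 < Real.sqrt (p : ℕ) := Real.sqrt_pos.2 hp0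
  have h1 : |tt (F.form i) p| ≤ 2 := tn_le F i p
  have h2 : rc (F.form i) p ^ 2 ≤ 4 * (p : ℕ) := by
    unfold tt at h1
    rw [abs_div, abs_of_pos hs, div_le_iff₀ hs] at h1
    have h3 := pow_le_pow_left₀ (abs_nonneg _) h1 2
    rw [sq_abs, mul_pow, Real.sq_sqrt hp0.le] at h3
    linarith
  obtain ⟨u, v, g1, g2, g3, g4⟩ := exists_uv (rc (F.form i) p) p h2
  refine ⟨u, v, ?_, g1, g3, g4⟩
  have e : (X ^ 2 - C (ac (F.form i) (p : ℕ)) * X + C ((p : ℕ) : ℂ) : ℂ[X]) =
      (X - C u) * (X - C v) := by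
    have h1' : ac (F.form i) (p : ℕ) = u + v := by
      rw [g1, ← rc_eq (F.hecke i).real]
    have h2' : (((p : ℕ)) : ℂ) = u * v := by rw [g2]; push_cast; rfl
    rw [h1', h2', C_add, C_mul]
    ring
  unfold frobF
  rw [e, roots_mul (mul_ne_zero (X_sub_C_ne_zero u) (X_sub_C_ne_zero v)), roots_X_sub_C,
    roots_X_sub_C]
  rfl

theorem frobF_norm (i : ι) (p : Nat.Primes) {z : ℂ} (hz : z ∈ frobF F i p) :
    ‖z‖ = Real.sqrt (p : ℕ) := by
  obtain ⟨u, v, h1, -, h2, h3⟩ := frobF_pair F i p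
  rw [h1] at hz
  simp only [Multiset.insert_eq_cons, Multiset.mem_cons, Multiset.mem_singleton] at hz
  rcases hz with rfl | rfl
  · exact h2
  · exact h3

theorem frobF_card (i : ι) (p : Nat.Primes) : Multiset.card (frobF F i p) = 2 := by
  obtain ⟨u, v, h1, -, -, -⟩ := frobF_pair F i p
  rw [h1]
  rfl

theorem frobF_sum (i : ι) (p : Nat.Primes) :
    (frobF F i p).sum / ((Real.sqrt (p : ℕ) : ℝ) : ℂ) = ((tn F i p : ℝ) : ℂ) := by
  obtain ⟨u, v, h1, h2, -, -⟩ := frobF_pair F i p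
  rw [h1]
  simp only [Multiset.insert_eq_cons, Multiset.sum_cons, Multiset.sum_singleton]
  rw [h2]
  simp [tn, tt]

/-- the bounds for the Betti numbers of `Y` -/
def bY (m : ι →₀ ℕ) : ℕ → ℕ
  | 0 => 1
  | 1 => ∑ i ∈ m.support, m i * 2
  | 2 => 1
  | _ => 0

/-- the normalised traces of `Y` -/
noncomputable def TY (m : ι →₀ ℕ) : ℕ → Nat.Primes → ℝ
  | 0 => fun _ => 1
  | 1 => fun p => ∑ i ∈ m.support, m i * tn F i p
  | 2 => fun _ => 1
  | _ => fun _ => 0

theorem TY_le (m : ι →₀ ℕ) (c : ℕ) (p : Nat.Primes) : |TY F m c p| ≤ (bY m c : ℝ) := by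
  match c with
  | 0 => simp [TY, bY]
  | 1 =>
    simp only [TY, bY]
    push_cast
    refine (Finset.abs_sum_le_sum_abs _ _).trans (Finset.sum_le_sum fun i _ => ?_)
    rw [abs_mul, Nat.abs_cast]
    exact mul_le_mul_of_nonneg_left (tn_le F i p) (Nat.cast_nonneg _)
  | 2 => simp [TY, bY]
  | (k + 3) => simp [TY, bY]

theorem frobY_VG (m : ι →₀ ℕ) (p : Nat.Primes) : VG (bY m) p (frobY F m p) := by
  have hp0 : (0 : ℝ) < (p : ℕ) := by exact_mod_cast p.2.pos
  refine ⟨fun c => ?_, fun c => ?_⟩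
  · match c with
    | 0 => simp [frobY]
    | 1 =>
      intro z hz
      simp only [frobY, Finsupp.sum] at hz
      rw [Multiset.mem_sum] at hz
      obtain ⟨i, _, hz⟩ := hz
      rw [pow_one]
      exact frobF_norm F i p (Multiset.mem_of_mem_nsmul hz)
    | 2 =>
      simp only [frobY, Multiset.mem_singleton, forall_eq]
      rw [Real.sq_sqrt hp0.le]
      simp
    | (k + 3) => simp [frobY]
  · match c with
    | 0 => simp [frobY, bY]
    | 1 =>
      simp only [frobY, Finsupp.sum, bY]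
      rw [Multiset.card_sum]
      refine Finset.sum_le_sum fun i _ => ?_
      rw [Multiset.card_nsmul, frobF_card]
    | 2 => simp [frobY, bY]
    | (k + 3) => simp [frobY]

theorem nt_frobY (m : ι →₀ ℕ) (p : Nat.Primes) (c : ℕ) :
    nt p (frobY F m p) c = ((TY F m c p : ℝ) : ℂ) := by
  have hp0 : (0 : ℝ) < (p : ℕ) := by exact_mod_cast p.2.pos
  unfold nt
  match c with
  | 0 => simp [frobY, TY]
  | 1 =>
    simp only [frobY, Finsupp.sum, TY, pow_one]
    have h1 : (∑ i ∈ m.support, m i • frobF F i (p : ℕ)).sum =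
        ∑ i ∈ m.support, (m i : ℂ) * (frobF F i (p : ℕ)).sum := by
      have h2 := map_sum (Multiset.sumAddMonoidHom : Multiset ℂ →+ ℂ)
        (fun i => m i • frobF F i (p : ℕ)) m.support
      refine h2.trans (Finset.sum_congr rfl fun i _ => ?_)
      rw [map_nsmul, nsmul_eq_mul]
      rfl
    rw [h1, Finset.sum_div]
    push_cast
    refine Finset.sum_congr rfl fun i _ => ?_
    rw [mul_div_assoc, frobF_sum]
  | 2 =>
    simp only [frobY, Multiset.sum_singleton, TY]
    have h7 : ((Real.sqrt (p : ℕ) : ℝ) : ℂ) ^ 2 = (p : ℕ) := by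
      rw [← Complex.ofReal_pow, Real.sq_sqrt hp0.le]
      simp
    rw [h7, div_self (by exact_mod_cast p.2.ne_zero)]
    simp
  | (k + 3) => simp [frobY, TY]

variable {N : ℕ → ℕ} {β : Nat.Primes → ℕ → Multiset ℂ}

/-- the trace on `H^{n-1}` of the base -/
noncomputable def zs (N : ℕ → ℕ) (β : Nat.Primes → ℕ → Multiset ℂ) : ℕ → Nat.Primes → ℝ
  | 0 => fun _ => 0
  | n + 1 => ZZ N β n

/-- the `n-1`-st Betti number -/
def bs (N : ℕ → ℕ) : ℕ → ℕ
  | 0 => 0
  | n + 1 => N n

theorem zs_le (n : ℕ) (p : Nat.Primes) : |zs N β n p| ≤ (bs N n : ℝ) := by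
  cases n with
  | zero => simp [zs, bs]
  | succ n => exact ZZ_le N β n p

/-- the size of the part of a newform -/
noncomputable def yy (N : ℕ → ℕ) (β : Nat.Primes → ℕ → Multiset ℂ) (n : ℕ) (i : ι) (ε : ℝ) : ℝ :=
  E ε (fun p => zs N β n p * tn F i p) / lam ε

theorem zt_le (n : ℕ) (i : ι) (p : Nat.Primes) :
    |zs N β n p * tn F i p| ≤ (bs N n : ℝ) * 2 := by
  rw [abs_mul]
  exact mul_le_mul (zs_le n p) (tn_le F i p) (abs_nonneg _) (Nat.cast_nonneg _)

theorem PP_product (m : ι →₀ ℕ) (n : ℕ) (p : Nat.Primes) :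
    PP (ZZ N β) (fun _ : Unit => TY F m) [()] n p =
      evenPart (fun c => ZZ N β c p) 1 n +
        ∑ i ∈ m.support, (m i : ℝ) * (zs N β n p * tn F i p) := by
  have hz : ∀ z : ℕ → ℝ, ∀ k, evenPart z 0 k = z k := fun z k => by
    rw [← bnd_even]
    rfl
  simp only [PP]
  rw [evenPart_succ, hz]
  match n with
  | 0 => simp [TY, zs]
  | 1 =>
    rw [Finset.Nat.sum_antidiagonal_succ', Finset.Nat.antidiagonal_zero, Finset.sum_singleton,
      if_neg (by omega)]
    have e : ∑ i ∈ m.support, (m i : ℝ) * (ZZ N β 0 p * tn F i p) =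
        ZZ N β 0 p * ∑ i ∈ m.support, (m i : ℝ) * tn F i p := by
      rw [Finset.mul_sum]
      exact Finset.sum_congr rfl fun i _ => by ring
    simp only [TY, zs, zero_add, mul_one, add_zero]
    rw [e]
  | (n + 2) =>
    rw [Finset.Nat.sum_antidiagonal_succ', Finset.Nat.sum_antidiagonal_succ', if_pos (by omega),
      hz]
    have h1 : ∑ x ∈ HasAntidiagonal.antidiagonal n, ZZ N β x.1 p *
        TY F m (x.2 + 1 + 1) p = ZZ N β n p := by
      rw [Finset.sum_eq_single (n, 0)]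
      · simp [TY]
      · intro x hx hne
        have h4 := mem_antidiagonal.1 hx
        have h5 : ∃ k, x.2 = k + 1 := ⟨x.2 - 1, by
          have : x.2 ≠ 0 := fun h => hne (by ext <;> simp <;> omega)
          omega⟩
        obtain ⟨k, hk⟩ := h5
        rw [hk]
        simp [TY]
      · intro h
        exact absurd (HasAntidiagonal.mem_antidiagonal.2 (by simp)) h
    simp only at h1 ⊢
    rw [h1]
    have h2 : ZZ N β (n + 1) p * TY F m (0 + 1) p =
        ∑ i ∈ m.support, (m i : ℝ) * (zs N β (n + 2) p * tn F i p) := by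
      simp only [TY, zero_add, zs]
      rw [Finset.mul_sum]
      refine Finset.sum_congr rfl fun i _ => ?_
      ring
    have h3 : ZZ N β (n + 1 + 1) p * TY F m 0 p = ZZ N β (n + 2) p := by
      simp [TY]
    rw [h2, h3, show n + 2 - 2 = n by omega]
    ring

/-- the link for the products -/
theorem link_product (hβ : ∀ᶠ p in cofinite, VG N p (β p)) {m : ι →₀ ℕ} {n : ℕ}
    {B : Nat.Primes → ℂ[X]} {A : ℕ → Nat.Primes → ℂ[X]}
    (hB : IsEuler n (fun p => kunneth (β p) (frobY F m p) n) B)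
    (hA : ∀ c, IsEuler c (fun p => β p c) (A c)) :
    (∀ᶠ ε : ℝ in 𝓝[>] 0, LFun B ((n : ℂ) / 2 + 1 + ε) ≠ 0) ∧
    (∀ c, ∀ᶠ ε : ℝ in 𝓝[>] 0, LFun (A c) ((c : ℂ) / 2 + 1 + ε) ≠ 0) ∧
    Tendsto (fun ε => excess n B A ε - ∑ i ∈ m.support, (m i : ℝ) * yy F N β n i ε)
      (𝓝[>] 0) (𝓝 0) := by
  have hl := link_prod (ι := Unit) (β := β) (γ := fun _ p => frobY F m p) (N0 := N)
    (N := bY m) (T := fun _ c p => TY F m c p) hβ
    (fun _ => Filter.Eventually.of_forall fun p => frobY_VG F m p)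
    (fun _ => Filter.Eventually.of_forall fun p c => nt_frobY F m p c)
    (fun _ c p => TY_le F m c p) [()] (n := n) (B := B) hB
  have hl0 := fun c => link_base hβ (hA c)
  obtain ⟨C, hC⟩ := hl
  refine ⟨hC.mono fun ε h => h.1, fun c => ?_, ?_⟩
  · obtain ⟨C0, hC0⟩ := hl0 c
    exact hC0.mono fun ε h => h.1
  have s1 := size_sub (fun p => PP_le (fun (_ : Unit) c p => TY_le F m c p)
    (ZZ_le N β) [()] n p) ⟨C, hC⟩
  have s0 := fun c => size_sub (ZZ_le N β c) (hl0 c)
  have hz : ∀ (z : ℕ → ℝ) k, evenPart z 1 k = z k + if 2 ≤ k then z (k - 2) else 0 :=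
    fun z k => by
    have h0 : ∀ k, evenPart z 0 k = z k := fun k => by
      rw [← bnd_even]
      rfl
    rw [evenPart_succ, h0, h0]
  have s2 : Tendsto (fun ε => evenPart (fun c => size c (A c) ε) 1 n -
      evenPart (fun c => E ε (ZZ N β c) / lam ε) 1 n) (𝓝[>] 0) (𝓝 0) := by
    simp only [hz]
    by_cases h2 : 2 ≤ n
    · simp only [if_pos h2]
      have := (s0 n).add (s0 (n - 2))
      rw [add_zero] at this
      exact this.congr fun ε => by ring
    · simp only [if_neg h2, add_zero]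
      exact s0 n
  have s3 := s1.sub s2
  rw [sub_zero] at s3
  refine s3.congr' ?_
  filter_upwards [self_mem_nhdsWithin] with ε hε'
  have hε : (0 : ℝ) < ε := hε'
  have hb1 : ∀ p, |∑ i ∈ m.support, (m i : ℝ) * (zs N β n p * tn F i p)| ≤
      ∑ i ∈ m.support, (m i : ℝ) * ((bs N n : ℝ) * 2) := fun p => by
    refine (Finset.abs_sum_le_sum_abs _ _).trans (Finset.sum_le_sum fun i _ => ?_)
    rw [abs_mul, Nat.abs_cast]
    exact mul_le_mul_of_nonneg_left (zt_le F n i p) (Nat.cast_nonneg _)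
  have e1 : E ε (PP (ZZ N β) (fun _ : Unit => TY F m) [()] n) =
      evenPart (fun c => E ε (ZZ N β c)) 1 n + (∑ i ∈ m.support, (m i : ℝ) *
        E ε (fun p => zs N β n p * tn F i p)) := by
    have e2 : PP (ZZ N β) (fun _ : Unit => TY F m) [()] n = fun p =>
        (ZZ N β n p + (if 2 ≤ n then ZZ N β (n - 2) p else 0)) +
          (∑ i ∈ m.support, (m i : ℝ) * (zs N β n p * tn F i p)) := by
      funext p
      rw [PP_product, hz]
    have hb2 : ∀ p, |if 2 ≤ n then ZZ N β (n - 2) p else 0| ≤ (N (n - 2) : ℝ) := fun p => by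
      split_ifs
      · exact ZZ_le N β (n - 2) p
      · rw [abs_zero]
        exact Nat.cast_nonneg _
    rw [e2, E_add' hε (fun p => (abs_add_le _ _).trans (add_le_add (ZZ_le N β n p) (hb2 p))) hb1,
      E_add' hε (ZZ_le N β n) hb2, E_fsum hε m.support
      (fun i p => (m i : ℝ) * (zs N β n p * tn F i p))
      (fun i => (m i : ℝ) * ((bs N n : ℝ) * 2)) (fun i _ p => by
        rw [abs_mul, Nat.abs_cast]
        exact mul_le_mul_of_nonneg_left (zt_le F n i p) (Nat.cast_nonneg _)), hz]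
    have e7 : (E ε fun p => if 2 ≤ n then ZZ N β (n - 2) p else 0) =
        if 2 ≤ n then E ε (ZZ N β (n - 2)) else 0 := by
      by_cases h2 : 2 ≤ n
      · simp only [if_pos h2]
      · simp only [if_neg h2]
        exact Pool.Agent.Y149.PK.E_zero ε
    rw [e7]
    congr 1
    exact Finset.sum_congr rfl fun i _ => E_smul ε _ _
  have e3 : E ε (PP (ZZ N β) (fun _ c p => TY F m c p) [()] n) =
    E ε (PP (ZZ N β) (fun _ : Unit => TY F m) [()] n) := rfl
  rw [e3, e1]
  unfold excess yy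
  rw [add_div, Finset.sum_div, hz, hz, hz]
  have e6 : ∑ i ∈ m.support, (m i : ℝ) * E ε (fun p => zs N β n p * tn F i p) / lam ε =
      ∑ i ∈ m.support, (m i : ℝ) * (E ε (fun p => zs N β n p * tn F i p) / lam ε) :=
    Finset.sum_congr rfl fun i _ => mul_div_assoc _ _ _
  rw [e6]
  split_ifs <;> ring

/-- the link for the newforms -/
theorem link_twist (X : Variety) {i : ι} {n : ℕ} {B : Nat.Primes → ℂ[X]}
    (hB : IsTwist X F i n B) :
    (∀ᶠ ε : ℝ in 𝓝[>] 0, LFun B (((n + 1 : ℕ) : ℂ) / 2 + 1 + ε) ≠ 0) ∧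
    Tendsto (fun ε => size (n + 1) B ε - yy F X.betti X.frob (n + 1) i ε) (𝓝[>] 0) (𝓝 0) := by
  have hl := log_gen hB (Mb := X.betti n * 2) (φ := fun p => zs X.betti X.frob (n + 1) p * tn F i p)
    (C0 := (X.betti n : ℝ) * 2) ?_ (zt_le F (n + 1) i) ?_
  · obtain ⟨C, hC⟩ := hl
    exact ⟨hC.mono fun ε h => h.1, size_sub (zt_le F (n + 1) i) ⟨C, hC⟩⟩
  · refine (X_VG X).mono fun p hp => ⟨fun z hz => ?_, ?_⟩
    · unfold tens at hz
      rw [Multiset.mem_map] at hz
      obtain ⟨w, hw, rfl⟩ := hz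
      rw [Multiset.mem_product] at hw
      rw [norm_mul, hp.weight n _ hw.1, frobF_norm F i p hw.2, ← pow_succ]
    · unfold tens
      rw [Multiset.card_map, Multiset.card_product, frobF_card]
      exact Nat.mul_le_mul_right _ (hp.card n)
  · refine (X_GG X).mono fun p hp => ?_
    have h1 : (tens (X.frob p n) (frobF F i p)).sum / ((Real.sqrt (p : ℕ) : ℝ) : ℂ) ^ (n + 1) =
        nt p (X.frob p) n * ((frobF F i p).sum / ((Real.sqrt (p : ℕ) : ℝ) : ℂ)) := by
      unfold tens nt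
      rw [sum_product, div_mul_div_comm, ← pow_succ]
    rw [h1, zz_nt X hp, frobF_sum, ← Complex.ofReal_mul, Complex.ofReal_re]
    rfl

end

end Pool.Agent.D0H32.MC
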