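import Pool.Agent.D0H32.MC.Link

/-! The main theorems. -/

set_option autoImplicit false

open Finset Filter Topology Complex Polynomial

namespace Pool.Agent.D0H32.MC

open Pool.Agent.H341R2 (E lam lam_tendsto)
open Pool.Agent.Y149.PK (Variety IsEuler HasOrder size tens size_order sq_perturb VG ZZ ZZ_le
  lam_pos abs_E_le evenPart evenPart_succ bnd_even evenPart_cast_int)
open Pool.Agent.Y149.CM (LFun kunneth)

section
variable {ι : Type}

theorem cs_pos (s : Finset ι) (w y : ι → ℝ) (hw : ∀ i ∈ s, 0 ≤ w i) :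
    (max (∑ i ∈ s, w i * y i) 0) ^ 2 ≤ (∑ i ∈ s, w i ^ 2) * ∑ i ∈ s, (max (y i) 0) ^ 2 := by
  have h0 : 0 ≤ ∑ i ∈ s, w i * max (y i) 0 :=
    Finset.sum_nonneg fun i hi => mul_nonneg (hw i hi) (le_max_right _ _)
  have h1 : max (∑ i ∈ s, w i * y i) 0 ≤ ∑ i ∈ s, w i * max (y i) 0 :=
    max_le (Finset.sum_le_sum fun i hi => mul_le_mul_of_nonneg_left (le_max_left _ _) (hw i hi)) h0
  exact (pow_le_pow_left₀ (le_max_right _ _) h1 2).trans (Finset.sum_mul_sq_le_sq_mul_sq s w _)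

theorem rankEnd_cast (m : ι →₀ ℕ) : (rankEnd m : ℝ) = ∑ i ∈ m.support, (m i : ℝ) ^ 2 := by
  unfold rankEnd Finsupp.sum
  push_cast
  rfl

/-- Bessel's inequality for blocks -/
theorem blocks {κ : Type} (S : κ → Finset ι) (w : κ → ι → ℝ) (hw : ∀ a, ∀ i ∈ S a, 0 ≤ w a i)
    (J : Finset κ) (hdis : ∀ a ∈ J, ∀ b ∈ J, a ≠ b → Disjoint (S a) (S b)) (y : ι → ℝ) {K : ℝ}
    (h : ∀ I : Finset ι, (∀ i ∈ I, ∃ a ∈ J, i ∈ S a) → ∑ i ∈ I, (max (y i) 0) ^ 2 ≤ K) :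
    ∑ a ∈ J, (max (∑ i ∈ S a, w a i * y i) 0) ^ 2 / (∑ i ∈ S a, w a i ^ 2) ≤ K := by
  classical
  have h1 : ∑ i ∈ J.biUnion S, (max (y i) 0) ^ 2 = ∑ a ∈ J, ∑ i ∈ S a, (max (y i) 0) ^ 2 :=
    Finset.sum_biUnion fun a ha b hb hab => hdis a ha b hb hab
  have h2 := h (J.biUnion S) fun i hi => Finset.mem_biUnion.1 hi
  rw [h1] at h2
  refine (Finset.sum_le_sum fun a _ => ?_).trans h2
  have h3 : 0 ≤ ∑ i ∈ S a, w a i ^ 2 := Finset.sum_nonneg fun i _ => sq_nonneg _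
  exact div_le_of_le_mul₀ h3 (Finset.sum_nonneg fun i _ => sq_nonneg _)
    (by rw [mul_comm]; exact cs_pos (S a) (w a) y (hw a))

/-- small perturbations -/
theorem perturb {κ : Type} (J : Finset κ) (w : κ → ℝ) (hw : ∀ a, 0 ≤ w a) (x y : κ → ℝ → ℝ)
    {K : ℝ} (hK : 0 ≤ K)
    (h : ∀ η : ℝ, 0 < η → ∀ᶠ ε : ℝ in 𝓝[>] 0, ∑ a ∈ J, (max (x a ε) 0) ^ 2 / w a ≤ K + η)
    (hy : ∀ a ∈ J, Tendsto (fun ε => y a ε - x a ε) (𝓝[>] 0) (𝓝 0)) {η : ℝ} (hη : 0 < η) :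
    ∀ᶠ ε : ℝ in 𝓝[>] 0, ∑ a ∈ J, (max (y a ε) 0) ^ 2 / w a ≤ K + η := by
  have e : ∀ (z : κ → ℝ → ℝ) (ε : ℝ), ∑ a ∈ J, (max (z a ε) 0) ^ 2 / w a =
      ∑ a ∈ J, (max (z a ε) 0 / Real.sqrt (w a)) ^ 2 := fun z ε =>
    Finset.sum_congr rfl fun a _ => by rw [div_pow, Real.sq_sqrt (hw a)]
  have h1 := sq_perturb J (fun a ε => max (x a ε) 0 / Real.sqrt (w a))
    (fun a ε => max (y a ε) 0 / Real.sqrt (w a)) K hK (fun η' hη' => (h η' hη').mono fun ε g => by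
      rw [← e x ε]; exact g) (fun a ha => ?_) hη
  · exact h1.mono fun ε g => by rw [e y ε]; exact g
  · have h2 : Tendsto (fun ε => |y a ε - x a ε| / Real.sqrt (w a)) (𝓝[>] 0) (𝓝 0) := by
      have h3 := ((hy a ha).abs).div_const (Real.sqrt (w a))
      rwa [abs_zero, zero_div] at h3
    refine squeeze_zero_norm (fun ε => ?_) h2
    rw [← sub_div, Real.norm_eq_abs, abs_div, abs_of_nonneg (Real.sqrt_nonneg _)]
    refine div_le_div_of_nonneg_right ?_ (Real.sqrt_nonneg _)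
    exact abs_max_sub_max_le_abs _ _ _

end

/-! ### The base -/

/-- the mean square of the shifted traces is at most `q` -/
def QZ (N : ℕ → ℕ) (β : Nat.Primes → ℕ → Multiset ℂ) (n : ℕ) (q : ℝ) : Prop :=
  ∀ η : ℝ, 0 < η → ∀ᶠ ε : ℝ in 𝓝[>] 0, E ε (fun p => zs N β n p ^ 2) / lam ε ≤ q + η

theorem QZ_betti (N : ℕ → ℕ) (β : Nat.Primes → ℕ → Multiset ℂ) (n : ℕ) :
    QZ N β n ((bs N n : ℝ) ^ 2) := by
  intro η hη
  have hb : ∀ p, |zs N β n p ^ 2| ≤ (bs N n : ℝ) ^ 2 := fun p => by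
    rw [abs_pow]
    exact pow_le_pow_left₀ (abs_nonneg _) (zs_le n p) 2
  filter_upwards [lam_pos, self_mem_nhdsWithin] with ε h1 h2
  have hε : (0 : ℝ) < ε := h2
  rw [div_le_iff₀ h1]
  refine (le_abs_self _).trans ((abs_E_le hε hb).trans ?_)
  refine mul_le_mul_of_nonneg_right ?_ h1.le
  linarith

section
variable {ι : Type} (F : Newforms ι) {N : ℕ → ℕ} {β : Nat.Primes → ℕ → Multiset ℂ} {n : ℕ}
  {q : ℝ}

/-- Bessel's inequality for the sizes of the newforms -/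
theorem bessel_yy (hq : QZ N β n q) (J : Finset ι) {s : ℝ} (hs : s = 1 ∨ s = -1) {η : ℝ}
    (hη : 0 < η) : ∀ᶠ ε : ℝ in 𝓝[>] 0,
      ∑ i ∈ J, (max (s * yy F N β n i ε) 0) ^ 2 ≤ q + η :=
  bessel_newforms F J (zs N β n) (zs_le n) hq hs hη

/-- the inequality for blocks of newforms -/
theorem bessel_blocks (hq : QZ N β n q) {κ : Type} (S : κ → Finset ι) (w : κ → ι → ℝ)
    (hw : ∀ a, ∀ i ∈ S a, 0 ≤ w a i) (J : Finset κ)
    (hdis : ∀ a ∈ J, ∀ b ∈ J, a ≠ b → Disjoint (S a) (S b)) {s : ℝ} (hs : s = 1 ∨ s = -1) {η : ℝ}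
    (hη : 0 < η) : ∀ᶠ ε : ℝ in 𝓝[>] 0,
      ∑ a ∈ J, (max (s * ∑ i ∈ S a, w a i * yy F N β n i ε) 0) ^ 2 / (∑ i ∈ S a, w a i ^ 2) ≤
        q + η := by
  classical
  filter_upwards [bessel_yy F hq (J.biUnion S) hs hη] with ε h1
  have h2 := blocks S w hw J hdis (fun i => s * yy F N β n i ε) (K := q + η) fun I hI => by
    refine (Finset.sum_le_sum_of_subset_of_nonneg (fun i hi => Finset.mem_biUnion.2 (hI i hi))
      fun _ _ _ => sq_nonneg _).trans h1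
  refine le_of_eq_of_le (Finset.sum_congr rfl fun a _ => ?_) h2
  congr 3
  rw [Finset.mul_sum]
  exact Finset.sum_congr rfl fun i _ => by ring

/-! ### Curves without common factors -/

/-- **The sizes for curves without common factors.** -/
theorem curves_size (hβ : ∀ᶠ p in cofinite, VG N p (β p)) (hq : QZ N β n q) (hq0 : 0 ≤ q)
    {A : ℕ → Nat.Primes → ℂ[X]} (hA : ∀ c, IsEuler c (fun p => β p c) (A c))
    {κ : Type} {m : κ → ι →₀ ℕ}
    (hdis : ∀ a b, a ≠ b → Disjoint (m a).support (m b).support) {B : κ → Nat.Primes → ℂ[X]}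
    (hB : ∀ a, IsEuler n (fun p => kunneth (β p) (frobY F (m a) p) n) (B a))
    (J : Finset κ) {s : ℝ} (hs : s = 1 ∨ s = -1)
    {η : ℝ} (hη : 0 < η) : ∀ᶠ ε : ℝ in 𝓝[>] 0,
      ∑ a ∈ J, (max (s * excess n (B a) A ε) 0) ^ 2 / rankEnd (m a) ≤ q + η := by
  refine perturb J (fun a => (rankEnd (m a) : ℝ)) (fun a => Nat.cast_nonneg _)
    (fun a ε => s * ∑ i ∈ (m a).support, (m a i : ℝ) * yy F N β n i ε)
    (fun a ε => s * excess n (B a) A ε) hq0 (fun η' hη' => ?_)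
    (fun a _ => ?_) hη
  · filter_upwards [bessel_blocks F hq (fun a => (m a).support) (fun a i => (m a i : ℝ))
      (fun a i _ => Nat.cast_nonneg _) J (fun a _ b _ hab => hdis a b hab) hs hη'] with ε h1
    simp only [rankEnd_cast]
    exact h1
  · have h1 := ((link_product F hβ (hB a) hA).2.2).const_mul s
    rw [mul_zero] at h1
    exact h1.congr fun ε => by ring

theorem evenPart_one (z : ℕ → ℝ) (k : ℕ) :
    evenPart z 1 k = z k + if 2 ≤ k then z (k - 2) else 0 := by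
  have h0 : ∀ k, evenPart z 0 k = z k := fun k => by
    rw [← bnd_even]
    rfl
  rw [evenPart_succ, h0, h0]

/-- the limit of the excess -/
theorem excess_lim {B : Nat.Primes → ℂ[X]} {A : ℕ → Nat.Primes → ℂ[X]} {r : ℤ} {r₀ : ℕ → ℤ}
    (h : HasOrder n B (-r)) (h₀ : ∀ c, c = n ∨ c + 2 = n → HasOrder c (A c) (-(r₀ c))) :
    Tendsto (excess n B A) (𝓝[>] 0) (𝓝 ((r - evenPart r₀ 1 n : ℤ) : ℝ)) := by
  have h1 : Tendsto (fun ε => evenPart (fun c => size c (A c) ε) 1 n) (𝓝[>] 0)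
      (𝓝 (evenPart (fun c => (r₀ c : ℝ)) 1 n)) := by
    simp only [evenPart_one]
    by_cases h2 : 2 ≤ n
    · simp only [if_pos h2]
      exact (size_order (h₀ n (Or.inl rfl))).add
        (size_order (h₀ (n - 2) (Or.inr (by omega))))
    · simp only [if_neg h2, add_zero]
      exact size_order (h₀ n (Or.inl rfl))
  have h3 := (size_order h).sub h1
  rw [evenPart_cast_int] at h3
  push_cast
  exact h3

/-- **The orders for curves without common factors.** -/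
theorem curves_order (hβ : ∀ᶠ p in cofinite, VG N p (β p)) (hq : QZ N β n q) (hq0 : 0 ≤ q)
    {A : ℕ → Nat.Primes → ℂ[X]} (hA : ∀ c, IsEuler c (fun p => β p c) (A c))
    {κ : Type} {m : κ → ι →₀ ℕ}
    (hdis : ∀ a b, a ≠ b → Disjoint (m a).support (m b).support) {B : κ → Nat.Primes → ℂ[X]}
    (hB : ∀ a, IsEuler n (fun p => kunneth (β p) (frobY F (m a) p) n) (B a))
    (J : Finset κ) {s : ℝ} (hs : s = 1 ∨ s = -1)
    {r₀ : ℕ → ℤ} {r : κ → ℤ}
    (h₀ : ∀ c, c = n ∨ c + 2 = n → HasOrder c (A c) (-(r₀ c)))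
    (hr : ∀ a ∈ J, HasOrder n (B a) (-(r a))) :
    ∑ a ∈ J, (max (s * ((r a - evenPart r₀ 1 n : ℤ) : ℝ)) 0) ^ 2 / rankEnd (m a) ≤ q := by
  refine le_of_forall_pos_le_add fun η hη => ?_
  refine le_of_tendsto (f := fun ε => ∑ a ∈ J, (max (s * excess n (B a) A ε) 0) ^ 2 /
    rankEnd (m a)) (tendsto_finsetSum _ fun a ha => ?_)
    (curves_size F hβ hq hq0 hA hdis hB J hs hη)
  exact ((((excess_lim (hr a ha) h₀).const_mul s).max tendsto_const_nhds).pow 2).div_const _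

theorem sq_split (x : ℝ) : x ^ 2 = (max (1 * x) 0) ^ 2 + (max (-1 * x) 0) ^ 2 := by
  rcases le_total 0 x with h | h
  · rw [max_eq_left (by linarith), max_eq_right (by linarith)]
    ring
  · rw [max_eq_right (by linarith), max_eq_left (by linarith)]
    ring

/-- **The exceptional curves.** -/
theorem curves_exceptional (hβ : ∀ᶠ p in cofinite, VG N p (β p)) (hq : QZ N β n q) (hq0 : 0 ≤ q)
    {A : ℕ → Nat.Primes → ℂ[X]} (hA : ∀ c, IsEuler c (fun p => β p c) (A c))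
    {κ : Type} {m : κ → ι →₀ ℕ}
    (hdis : ∀ a b, a ≠ b → Disjoint (m a).support (m b).support) {B : κ → Nat.Primes → ℂ[X]}
    (hB : ∀ a, IsEuler n (fun p => kunneth (β p) (frobY F (m a) p) n) (B a))
    {δ : ℝ} (hδ : 0 < δ) (hδ1 : δ < 1) :
    ∃ S : Set κ, (∀ J : Finset κ, (∀ a ∈ J, a ∈ S) →
        ∑ a ∈ J, (1 : ℝ) / rankEnd (m a) ≤ 2 * q / δ ^ 2) ∧
      ∀ a, a ∉ S → (∃ᶠ ε : ℝ in 𝓝[>] 0, |excess n (B a) A ε| < δ) ∧
        ∀ (r : ℤ) (r₀ : ℕ → ℤ), HasOrder n (B a) (-r) →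
          (∀ c, c = n ∨ c + 2 = n → HasOrder c (A c) (-(r₀ c))) → r = evenPart r₀ 1 n := by
  refine ⟨{a | ∀ᶠ ε : ℝ in 𝓝[>] 0, δ ≤ |excess n (B a) A ε|}, fun J hJ => ?_, fun a ha => ?_⟩
  · rw [le_div_iff₀ (by positivity)]
    refine le_of_forall_pos_le_add fun η hη => ?_
    have hev : ∀ᶠ ε : ℝ in 𝓝[>] 0, ∀ a ∈ J, δ ≤ |excess n (B a) A ε| := by
      rw [Filter.eventually_all_finset]
      exact fun a ha => hJ a ha
    obtain ⟨ε, h1, h2, h3⟩ := (hev.and ((curves_size F hβ hq hq0 hA hdis hB J (Or.inl rfl)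
      (half_pos hη)).and (curves_size F hβ hq hq0 hA hdis hB J (Or.inr rfl)
      (half_pos hη)))).exists
    have h4 : (∑ a ∈ J, (1 : ℝ) / rankEnd (m a)) * δ ^ 2 ≤
        ∑ a ∈ J, ((max (1 * excess n (B a) A ε) 0) ^ 2 / rankEnd (m a) +
          (max (-1 * excess n (B a) A ε) 0) ^ 2 / rankEnd (m a)) := by
      rw [Finset.sum_mul]
      refine Finset.sum_le_sum fun a ha => ?_
      rw [← add_div, ← sq_split, one_div, inv_mul_eq_div]
      refine div_le_div_of_nonneg_right ?_ (Nat.cast_nonneg _)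
      rw [← sq_abs (excess n (B a) A ε)]
      exact pow_le_pow_left₀ hδ.le (h1 a ha) 2
    rw [Finset.sum_add_distrib] at h4
    linarith
  · have h1 : ∃ᶠ ε : ℝ in 𝓝[>] 0, |excess n (B a) A ε| < δ := by
      intro h
      exact ha (h.mono fun ε h2 => not_lt.1 h2)
    refine ⟨h1, fun r r₀ hr hr₀ => ?_⟩
    by_contra hne
    have h2 : (1 : ℝ) ≤ |((r - evenPart r₀ 1 n : ℤ) : ℝ)| := by
      have h3 : (1 : ℤ) ≤ |r - evenPart r₀ 1 n| := Int.one_le_abs (sub_ne_zero.2 hne)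
      exact_mod_cast h3
    have h3 := (excess_lim hr hr₀).abs
    have h4 := h3.eventually_const_lt
      (show δ < |((r - evenPart r₀ 1 n : ℤ) : ℝ)| by linarith)
    obtain ⟨ε, h5, h6⟩ := (h1.and_eventually h4).exists
    linarith

/-- **The exceptional curves, for the sizes.** -/
theorem curves_exceptional_size (hβ : ∀ᶠ p in cofinite, VG N p (β p)) (hq : QZ N β n q)
    (hq0 : 0 ≤ q) {A : ℕ → Nat.Primes → ℂ[X]} (hA : ∀ c, IsEuler c (fun p => β p c) (A c))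
    {κ : Type} {m : κ → ι →₀ ℕ}
    (hdis : ∀ a b, a ≠ b → Disjoint (m a).support (m b).support) {B : κ → Nat.Primes → ℂ[X]}
    (hB : ∀ a, IsEuler n (fun p => kunneth (β p) (frobY F (m a) p) n) (B a))
    {δ : ℝ} (hδ : 0 < δ) :
    ∃ S : Set κ, (∀ J : Finset κ, (∀ a ∈ J, a ∈ S) →
        ∑ a ∈ J, (1 : ℝ) / rankEnd (m a) ≤ 2 * q / δ ^ 2) ∧
      ∀ a, a ∉ S → ∃ᶠ ε : ℝ in 𝓝[>] 0, |excess n (B a) A ε| < δ := by
  refine ⟨{a | ∀ᶠ ε : ℝ in 𝓝[>] 0, δ ≤ |excess n (B a) A ε|}, fun J hJ => ?_, fun a ha => ?_⟩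
  · rw [le_div_iff₀ (by positivity)]
    refine le_of_forall_pos_le_add fun η hη => ?_
    have hev : ∀ᶠ ε : ℝ in 𝓝[>] 0, ∀ a ∈ J, δ ≤ |excess n (B a) A ε| := by
      rw [Filter.eventually_all_finset]
      exact fun a ha => hJ a ha
    obtain ⟨ε, h1, h2, h3⟩ := (hev.and ((curves_size F hβ hq hq0 hA hdis hB J (Or.inl rfl)
      (half_pos hη)).and (curves_size F hβ hq hq0 hA hdis hB J (Or.inr rfl)
      (half_pos hη)))).exists
    have h4 : (∑ a ∈ J, (1 : ℝ) / rankEnd (m a)) * δ ^ 2 ≤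
        ∑ a ∈ J, ((max (1 * excess n (B a) A ε) 0) ^ 2 / rankEnd (m a) +
          (max (-1 * excess n (B a) A ε) 0) ^ 2 / rankEnd (m a)) := by
      rw [Finset.sum_mul]
      refine Finset.sum_le_sum fun a ha => ?_
      rw [← add_div, ← sq_split, one_div, inv_mul_eq_div]
      refine div_le_div_of_nonneg_right ?_ (Nat.cast_nonneg _)
      rw [← sq_abs (excess n (B a) A ε)]
      exact pow_le_pow_left₀ hδ.le (h1 a ha) 2
    rw [Finset.sum_add_distrib] at h4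
    linarith
  · intro h
    exact ha (h.mono fun ε h2 => not_lt.1 h2)

end

end Pool.Agent.D0H32.MC
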