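import Pool.Agent.D0H32.MC.Main
import Pool.Agent.Y149.PK.Fin

/-! One set of curves for all varieties and any number of factors. -/

set_option autoImplicit false

open Finset Filter Topology Complex Polynomial

namespace Pool.Agent.D0H32.MC

open Pool.Agent.H341R2 (E lam lam_tendsto)
open Pool.Agent.Y149.PK (Variety IsEuler HasOrder size tens size_order VG evenPart evenPart_succ
  evenPart_cast_int frobProd ZZ ZZ_le ZZ_eq lam_pos E_add' E_smul E_one abs_E_le base_order)
open Pool.Agent.Y149.CM (LFun kunneth mem_kunneth card_kunneth nt)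

/-! ### The diagonal argument -/

section
variable {κ ω : Type}

/-- the sums of `w` over the finite subsets of `S` are at most `θ` -/
def SumLe (w : κ → ℝ) (S : Set κ) (θ : ℝ) : Prop :=
  ∀ J : Finset κ, (∀ a ∈ J, a ∈ S) → ∑ a ∈ J, w a ≤ θ

theorem tail_small {w : κ → ℝ} {S : Set κ} {C : ℝ} (h : SumLe w S C) {θ : ℝ} (hθ : 0 < θ) :
    ∃ T : Finset κ, SumLe w (S \ (T : Set κ)) θ := by
  classical
  set V : Set ℝ := {x | ∃ J : Finset κ, (∀ a ∈ J, a ∈ S) ∧ x = ∑ a ∈ J, w a} with hV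
  have hne : V.Nonempty := ⟨0, ∅, by simp, by simp⟩
  have hbd : BddAbove V := ⟨C, by
    rintro x ⟨J, hJ, rfl⟩
    exact h J hJ⟩
  obtain ⟨x, ⟨T, hT, rfl⟩, hx⟩ := exists_lt_of_lt_csSup hne (sub_lt_self (sSup V) hθ)
  refine ⟨T, fun J hJ => ?_⟩
  have hdis : Disjoint T J := by
    rw [Finset.disjoint_left]
    intro a ha ha'
    exact (hJ a ha').2 ha
  have h1 : ∑ a ∈ T ∪ J, w a ≤ sSup V := le_csSup hbd ⟨T ∪ J, fun a ha => by
    rcases Finset.mem_union.1 ha with h2 | h2
    · exact hT a h2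
    · exact (hJ a h2).1, rfl⟩
  rw [Finset.sum_union hdis] at h1
  linarith

/-- **The diagonal argument.** -/
theorem diagonal [Countable ω] {w : κ → ℝ} {E : ω → Set κ} {C : ω → ℝ}
    (h : ∀ x, SumLe w (E x) (C x)) {θ : ℝ} (hθ : 0 < θ) :
    ∃ S : Set κ, SumLe w S θ ∧ ∀ x, (E x \ S).Finite := by
  classical
  obtain ⟨k, hk⟩ := exists_injective_nat ω
  choose T hT using fun x => tail_small (h x) (show 0 < θ * (1 / 2) ^ (k x + 1) by positivity)
  refine ⟨⋃ x, (E x \ (T x : Set κ)), fun J hJ => ?_, fun x => ?_⟩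
  · have hx : ∀ a : κ, ∃ x : Option ω, a ∈ J → ∃ y, x = some y ∧ a ∈ E y \ (T y : Set κ) := by
      intro a
      by_cases ha : a ∈ J
      · obtain ⟨y, hy⟩ := Set.mem_iUnion.1 (hJ a ha)
        exact ⟨some y, fun _ => ⟨y, rfl, hy⟩⟩
      · exact ⟨none, fun h => absurd h ha⟩
    choose x hx using hx
    have hmaps : ∀ a ∈ J, x a ∈ J.image x := fun a ha => Finset.mem_image_of_mem _ ha
    rw [← Finset.sum_fiberwise_of_maps_to hmaps]
    have h1 : ∀ o ∈ J.image x, ∑ a ∈ J with x a = o, w a ≤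
        θ * (1 / 2) ^ ((match o with | none => 0 | some y => k y) + 1) := by
      intro o ho
      obtain ⟨a, ha, rfl⟩ := Finset.mem_image.1 ho
      obtain ⟨y, hy, -⟩ := hx a ha
      rw [hy]
      refine hT y _ fun b hb => ?_
      rw [Finset.mem_filter] at hb
      obtain ⟨z, hz, hz'⟩ := hx b hb.1
      rw [hz] at hb
      have : z = y := by simpa using hb.2
      rw [← this]
      exact hz'
    refine (Finset.sum_le_sum h1).trans ?_
    rw [← Finset.mul_sum]
    have h2 : ∑ o ∈ J.image x, (1 / 2 : ℝ) ^ ((match o with | none => 0 | some y => k y) + 1) ≤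
        1 := by
      have hinj : Set.InjOn (fun o : Option ω => (match o with | none => 0 | some y => k y))
          (J.image x : Set (Option ω)) := by
        intro o ho o' ho' he
        obtain ⟨a, ha, rfl⟩ := Finset.mem_image.1 (Finset.mem_coe.1 ho)
        obtain ⟨a', ha', rfl⟩ := Finset.mem_image.1 (Finset.mem_coe.1 ho')
        obtain ⟨y, hy, -⟩ := hx a ha
        obtain ⟨y', hy', -⟩ := hx a' ha'
        rw [hy, hy'] at he ⊢
        simp only at he
        rw [hk he]
      rw [← Finset.sum_image (f := fun n : ℕ => (1 / 2 : ℝ) ^ (n + 1)) hinj]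
      have hs : HasSum (fun n : ℕ => (1 / 2 : ℝ) ^ (n + 1)) 1 := by
        have e : (fun n : ℕ => (1 / 2 : ℝ) ^ (n + 1)) = fun n => (1 : ℝ) / 2 / 2 ^ n := by
          funext n
          rw [pow_succ, div_pow, one_pow]
          ring
        rw [e]
        exact hasSum_geometric_two' 1
      exact sum_le_hasSum _ (fun n _ => by positivity) hs
    calc θ * _ ≤ θ * 1 := mul_le_mul_of_nonneg_left h2 hθ.le
      _ = θ := mul_one _
  · refine (T x).finite_toSet.subset ?_
    intro a ha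
    by_contra h
    exact ha.2 (Set.mem_iUnion.2 ⟨x, ha.1, h⟩)

end

/-! ### Products with several curves -/

/-- the Betti numbers of a product -/
def cv (N N' : ℕ → ℕ) (n : ℕ) : ℕ := ∑ x ∈ HasAntidiagonal.antidiagonal n, N x.1 * N' x.2

theorem VG_kunneth {N N' : ℕ → ℕ} {p : Nat.Primes} {β γ : ℕ → Multiset ℂ} (hβ : VG N p β)
    (hγ : VG N' p γ) : VG (cv N N') p (kunneth β γ) := by
  refine ⟨fun n z hz => ?_, fun n => ?_⟩
  · obtain ⟨i, j, x, y, hij, hx, hy, rfl⟩ := mem_kunneth hz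
    rw [norm_mul, hβ.weight i x hx, hγ.weight j y hy, ← pow_add, hij]
  · rw [card_kunneth]
    exact Finset.sum_le_sum fun x _ => Nat.mul_le_mul (hβ.card x.1) (hγ.card x.2)

theorem cv_zero {N N' : ℕ → ℕ} {d d' : ℕ} (h : ∀ c, d < c → N c = 0) (h' : ∀ c, d' < c → N' c = 0)
    {c : ℕ} (hc : d + d' < c) : cv N N' c = 0 := by
  unfold cv
  refine Finset.sum_eq_zero fun x hx => ?_
  have h1 := mem_antidiagonal.1 hx
  rcases Nat.lt_or_ge d x.1 with h2 | h2
  · rw [h _ h2, zero_mul]
  · rw [h' _ (by omega), mul_zero]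

section
variable {ι κ : Type} (F : Newforms ι) (m : κ → ι →₀ ℕ) (X : Variety)

/-- bounds for the Betti numbers of `X × Y_{l_1} × ⋯ × Y_{l_k}` -/
def NL : List κ → ℕ → ℕ
  | [] => X.betti
  | a :: l => cv (NL l) (bY (m a))

theorem VG_list (l : List κ) : ∀ᶠ p in cofinite,
    VG (NL m X l) p (frobProd (X.frob p) (fun a => frobY F (m a) p) l) := by
  induction l with
  | nil => exact X_VG X
  | cons a l ih => exact ih.mono fun p h => VG_kunneth h (frobY_VG F (m a) p)

theorem betti_zero : ∀ c, 2 * X.dim < c → X.betti c = 0 := by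
  intro c hc
  obtain ⟨p, h1, -, h2⟩ := X.good.exists
  rw [← h2 c, h1.vanish c hc]
  rfl

theorem NL_zero (l : List κ) : ∃ d, ∀ c, d < c → NL m X l c = 0 := by
  induction l with
  | nil => exact ⟨2 * X.dim, betti_zero X⟩
  | cons a l ih =>
    obtain ⟨d, hd⟩ := ih
    refine ⟨d + 2, fun c hc => cv_zero hd (fun c' hc' => ?_) hc⟩
    match c' with
    | 0 => omega
    | 1 => omega
    | 2 => omega
    | (k + 3) => rfl

/-- `B l n` are the Euler factors of `L(H^n(X × Y_{l_1} × ⋯ × Y_{l_k}), s)`, for every list `l` of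
indices and every `n`; `Y_a` is a curve with `H^1(Y_a) = ⊕ V_i^{m_a(i)}`. -/
def IsSystemY (B : List κ → ℕ → Nat.Primes → ℂ[X]) : Prop :=
  ∀ (l : List κ) (n : ℕ), IsEuler n (fun p => frobProd (X.frob p) (fun a => frobY F (m a) p) l n)
    (B l n)

variable {F m X} in
theorem IsSystemY.cons {B : List κ → ℕ → Nat.Primes → ℂ[X]} (h : IsSystemY F m X B) (l : List κ)
    (a : κ) (n : ℕ) : IsEuler n (fun p =>
      kunneth (frobProd (X.frob p) (fun a => frobY F (m a) p) l) (frobY F (m a) p) n)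
      (B (a :: l) n) := h (a :: l) n

end

theorem rankEnd_pos {ι : Type} {m : ι →₀ ℕ} (hm : m ≠ 0) : 0 < rankEnd m := by
  obtain ⟨i, hi⟩ := Finsupp.support_nonempty_iff.2 hm
  unfold rankEnd Finsupp.sum
  refine Finset.sum_pos (fun j hj => ?_) ⟨i, hi⟩
  have := Finsupp.mem_support_iff.1 hj
  positivity

theorem evenPart_comp (z : ℕ → ℤ) (k n : ℕ) :
    evenPart (fun c => evenPart z k c) 1 n = evenPart z (k + 1) n := by
  have h1 : (((evenPart (fun c => evenPart z k c) 1 n : ℤ)) : ℝ) =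
      ((evenPart z (k + 1) n : ℤ) : ℝ) := by
    rw [← evenPart_cast_int, ← evenPart_cast_int, evenPart_one, evenPart_succ]
    simp only [← evenPart_cast_int]
  exact_mod_cast h1

/-- For almost all primes `p` all eigenvalues of Frobenius on `H^c(X)`, `c` even, are equal to
`p^{c/2}`: this holds if the cohomology of `X` in all even degrees is generated by algebraic cycles
over `ℚ`, for example for a point, for all curves (geometrically connected) and for the smooth
complete intersections of odd dimension. -/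
def IsAlgebraic (X : Variety) : Prop :=
  ∀ᶠ p : Nat.Primes in cofinite, ∀ c, Even c → ∀ z ∈ X.frob p c, z = ((p : ℕ) : ℂ) ^ (c / 2)

/-- the orders for the even cohomology of an algebraic variety -/
theorem algebraic_order {X : Variety} (hX : IsAlgebraic X) {c : ℕ} (hc : Even c)
    {B : Nat.Primes → ℂ[X]} (hB : IsEuler c (fun p => X.frob p c) B) {r : ℤ}
    (hr : HasOrder c B (-r)) : r = X.betti c := by
  classical
  have h1 := base_order X hB hr
  have hev : ∀ᶠ p : Nat.Primes in cofinite, ZZ X.betti X.frob c p = X.betti c := by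
    filter_upwards [hX, X_VG X, X.good] with p g1 g2 g3
    rw [← ZZ_eq g2 c]
    have hp0 : (0 : ℝ) < (p : ℕ) := by exact_mod_cast p.2.pos
    obtain ⟨d, rfl⟩ := hc
    have e1 : X.frob p (d + d) = Multiset.replicate (X.betti (d + d)) (((p : ℕ) : ℂ) ^ d) := by
      rw [Multiset.eq_replicate]
      refine ⟨g3.2.2 _, fun z hz => ?_⟩
      rw [g1 (d + d) ⟨d, rfl⟩ z hz, show (d + d) / 2 = d by omega]
    unfold nt
    rw [e1, Multiset.sum_replicate, nsmul_eq_mul]
    have h7 : ((Real.sqrt (p : ℕ) : ℝ) : ℂ) ^ (d + d) = ((p : ℕ) : ℂ) ^ d := by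
      rw [← two_mul, pow_mul, ← Complex.ofReal_pow, Real.sq_sqrt hp0.le]
      simp
    rw [h7, mul_div_assoc, div_self (pow_ne_zero _ (by exact_mod_cast p.2.ne_zero)), mul_one]
    simp
  have h2 : Tendsto (fun ε : ℝ => E ε (ZZ X.betti X.frob c) / lam ε) (𝓝[>] 0)
      (𝓝 (X.betti c : ℝ)) := by
    set φ : Nat.Primes → ℝ := fun p => ZZ X.betti X.frob c p - X.betti c with hφ
    have hb : ∀ p, |φ p| ≤ (X.betti c : ℝ) + X.betti c := fun p =>
      (abs_sub _ _).trans (add_le_add (ZZ_le _ _ c p) (by rw [Nat.abs_cast]))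
    have hfin : {p | φ p ≠ 0}.Finite := by
      refine (Filter.eventually_cofinite.1 hev).subset fun p hp h => hp ?_
      rw [hφ]
      simp only
      rw [h, sub_self]
    have h3 : Tendsto (fun ε : ℝ => E ε φ / lam ε) (𝓝[>] 0) (𝓝 0) := by
      have h4 : Tendsto (fun ε : ℝ => (hfin.toFinset.card * ((X.betti c : ℝ) + X.betti c)) /
          lam ε) (𝓝[>] 0) (𝓝 0) := lam_tendsto.const_div_atTop _
      refine squeeze_zero_norm' ?_ h4
      filter_upwards [lam_pos, self_mem_nhdsWithin] with ε g1 g2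
      have hε : (0 : ℝ) < ε := g2
      rw [Real.norm_eq_abs, abs_div, abs_of_pos g1]
      exact div_le_div_of_nonneg_right (Pool.Agent.Y149.CM.E_fin hb hfin hε) g1.le
    have h5 := h3.add_const (X.betti c : ℝ)
    rw [zero_add] at h5
    refine h5.congr' ?_
    filter_upwards [lam_pos, self_mem_nhdsWithin] with ε g1 g2
    have hε : (0 : ℝ) < ε := g2
    have e2 : E ε (ZZ X.betti X.frob c) = E ε φ + X.betti c * lam ε := by
      rw [← E_one, ← E_smul, ← E_add' hε hb (B' := (X.betti c : ℝ) * 1) (fun p => by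
        rw [abs_mul, Nat.abs_cast, abs_one])]
      congr 1
      funext p
      rw [hφ]
      ring
    rw [e2]
    field_simp
  have h6 := h1.add h2
  rw [zero_add] at h6
  have h7 : Tendsto (fun _ : ℝ => (r : ℝ)) (𝓝[>] 0) (𝓝 (X.betti c : ℝ)) :=
    h6.congr fun ε => by ring
  have h8 := tendsto_nhds_unique h7 tendsto_const_nhds
  exact_mod_cast h8.symm

/-- **One set of curves for all varieties.** -/
theorem universal {ι : Type} (F : Newforms ι) {κ : Type} [Countable κ] {m : κ → ι →₀ ℕ}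
    (hm0 : ∀ a, m a ≠ 0) (hdis : ∀ a b, a ≠ b → Disjoint (m a).support (m b).support)
    (X : ℕ → Variety) {B : ℕ → List κ → ℕ → Nat.Primes → ℂ[X]}
    (hB : ∀ j, IsSystemY F m (X j) (B j)) {θ : ℝ} (hθ : 0 < θ) :
    ∃ S : Set κ, (∀ J : Finset κ, (∀ a ∈ J, a ∈ S) → ∑ a ∈ J, (1 : ℝ) / rankEnd (m a) ≤ θ) ∧
      (∀ (j : ℕ) (l : List κ) (n : ℕ) (δ : ℝ), 0 < δ → ∃ T : Finset κ, ∀ a, a ∉ S → a ∉ T →
        ∃ᶠ ε : ℝ in 𝓝[>] 0, |excess n (B j (a :: l) n) (B j l) ε| < δ) ∧
      (∀ (j : ℕ) (l : List κ), ∃ T : Finset κ, ∀ a, a ∉ S → a ∉ T → ∀ (n : ℕ) (r : ℤ)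
        (r₀ : ℕ → ℤ), HasOrder n (B j (a :: l) n) (-r) →
        (∀ c, c = n ∨ c + 2 = n → HasOrder c (B j l c) (-(r₀ c))) → r = evenPart r₀ 1 n) ∧
      ∀ r : ℕ → List κ → ℕ → ℤ, (∀ j l n, HasOrder n (B j l n) (-(r j l n))) →
        ∃ T : ℕ → List κ → Finset κ, ∀ (j : ℕ) (l : List κ),
          (∀ a t, (a :: t) <:+ l → a ∉ S ∧ a ∉ T j t) →
          (∀ n, r j l n = evenPart (r j []) l.length n) ∧
          (IsAlgebraic (X j) → ∀ n, r j l (2 * n) = (evenPart (X j).betti l.length (2 * n) : ℕ)) := by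
  classical
  -- the exceptional sets
  have hex : ∀ x : ℕ × List κ × ℕ × ℕ, ∃ E : Set κ,
      SumLe (fun a => (1 : ℝ) / rankEnd (m a)) E
        (2 * ((bs (NL m (X x.1) x.2.1) x.2.2.1 : ℝ) ^ 2) / (1 / ((x.2.2.2 : ℝ) + 2)) ^ 2) ∧
      ∀ a, a ∉ E →
        (∃ᶠ ε : ℝ in 𝓝[>] 0, |excess x.2.2.1 (B x.1 (a :: x.2.1) x.2.2.1) (B x.1 x.2.1) ε| <
          1 / ((x.2.2.2 : ℝ) + 2)) ∧
        ∀ (r : ℤ) (r₀ : ℕ → ℤ), HasOrder x.2.2.1 (B x.1 (a :: x.2.1) x.2.2.1) (-r) →
          (∀ c, c = x.2.2.1 ∨ c + 2 = x.2.2.1 → HasOrder c (B x.1 x.2.1 c) (-(r₀ c))) →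
          r = evenPart r₀ 1 x.2.2.1 := by
    rintro ⟨j, l, n, t⟩
    have hδ : (0 : ℝ) < 1 / ((t : ℝ) + 2) := by positivity
    have hδ1 : 1 / ((t : ℝ) + 2) < 1 := by
      rw [div_lt_one (by positivity)]
      have : (0 : ℝ) ≤ t := Nat.cast_nonneg t
      linarith
    exact curves_exceptional F (VG_list F m (X j) l) (QZ_betti (NL m (X j) l) _ n)
      (sq_nonneg _) (A := B j l) (fun c => hB j l c) (B := fun a => B j (a :: l) n)
      hdis (fun a => (hB j).cons l a n) hδ hδ1
  choose E hE hE2 using hex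
  obtain ⟨S, hS, hfin⟩ := diagonal hE hθ
  have h3 : ∀ (j : ℕ) (l : List κ), ∃ T : Finset κ, ∀ a, a ∉ S → a ∉ T → ∀ (n : ℕ) (r : ℤ)
      (r₀ : ℕ → ℤ), HasOrder n (B j (a :: l) n) (-r) →
      (∀ c, c = n ∨ c + 2 = n → HasOrder c (B j l c) (-(r₀ c))) → r = evenPart r₀ 1 n := by
    intro j l
    obtain ⟨d, hd⟩ := NL_zero m (X j) l
    refine ⟨(Finset.range (d + 2)).biUnion fun n => (hfin (j, l, n, 0)).toFinset,
      fun a ha haT n r r₀ hr hr₀ => ?_⟩
    rcases Nat.lt_or_ge n (d + 2) with hn | hn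
    · have h4 : a ∉ E (j, l, n, 0) := fun h => haT (Finset.mem_biUnion.2
        ⟨n, Finset.mem_range.2 hn, by
          rw [Set.Finite.mem_toFinset]
          exact ⟨h, ha⟩⟩)
      exact (hE2 (j, l, n, 0) a h4).2 r r₀ hr hr₀
    · have hq : QZ (NL m (X j) l)
          (fun p => frobProd ((X j).frob p) (fun a => frobY F (m a) p) l) n 0 := by
        have h5 := QZ_betti (NL m (X j) l)
          (fun p : Nat.Primes => frobProd ((X j).frob p) (fun a => frobY F (m a) p) l) n
        have h6 : bs (NL m (X j) l) n = 0 := by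
          obtain ⟨k, rfl⟩ : ∃ k, n = k + 1 := ⟨n - 1, by omega⟩
          exact hd k (by omega)
        rw [h6] at h5
        simpa using h5
      have hpos : (0 : ℝ) < rankEnd (m a) := by exact_mod_cast rankEnd_pos (hm0 a)
      have key : ∀ s : ℝ, (s = 1 ∨ s = -1) → s * ((r - evenPart r₀ 1 n : ℤ) : ℝ) ≤ 0 := by
        intro s hs
        have h7 := curves_order F (VG_list F m (X j) l) hq le_rfl (A := B j l)
          (fun c => hB j l c) (κ := Unit) (m := fun _ => m a)
          (fun x y h => absurd (Subsingleton.elim x y) h) (B := fun _ => B j (a :: l) n)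
          (fun _ => (hB j).cons l a n) {()} hs (r := fun _ => r) hr₀ (fun _ _ => hr)
        rw [Finset.sum_singleton] at h7
        have h8 : (max (s * ((r - evenPart r₀ 1 n : ℤ) : ℝ)) 0) ^ 2 ≤ 0 := by
          have := (div_le_iff₀ hpos).1 h7
          simpa using this
        have h9 : max (s * ((r - evenPart r₀ 1 n : ℤ) : ℝ)) 0 = 0 := by
          have := le_antisymm h8 (sq_nonneg _)
          exact pow_eq_zero_iff (two_ne_zero) |>.1 this
        exact max_eq_right_iff.1 h9
      have k1 := key 1 (Or.inl rfl)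
      have k2 := key (-1) (Or.inr rfl)
      have k3 : ((r - evenPart r₀ 1 n : ℤ) : ℝ) = 0 := by linarith
      have k4 : r - evenPart r₀ 1 n = 0 := by exact_mod_cast k3
      linarith
  refine ⟨S, hS, fun j l n δ hδ => ?_, h3, fun r hr => ?_⟩
  · obtain ⟨t, ht⟩ := exists_nat_gt (1 / δ)
    refine ⟨(hfin (j, l, n, t)).toFinset, fun a ha haT => ?_⟩
    have h4 : a ∉ E (j, l, n, t) := fun h => haT (by
      rw [Set.Finite.mem_toFinset]
      exact ⟨h, ha⟩)
    refine (hE2 (j, l, n, t) a h4).1.mono fun ε hε => hε.trans ?_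
    rw [div_lt_iff₀ (by positivity)]
    rw [div_lt_iff₀ hδ] at ht
    nlinarith
  · choose T hT using h3
    have main : ∀ (j : ℕ) (l : List κ), (∀ a t, (a :: t) <:+ l → a ∉ S ∧ a ∉ T j t) →
        ∀ n, r j l n = evenPart (r j []) l.length n := by
     intro j l
     induction l with
     | nil =>
      intro _ n
      have : evenPart (r j []) 0 n = r j [] n := by
        unfold evenPart
        rw [Finset.sum_range_succ']
        simp
      exact this.symm
     | cons a l ih =>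
      intro hl n
      have h4 := ih fun b t hbt => hl b t (hbt.trans (List.suffix_cons a l))
      have h5 := hl a l List.suffix_rfl
      have h6 := hT j l a h5.1 h5.2 n (r j (a :: l) n) (r j l) (hr j (a :: l) n)
        (fun c _ => hr j l c)
      rw [h6]
      have h7 : r j l = fun c => evenPart (r j []) l.length c := funext h4
      rw [h7, evenPart_comp, List.length_cons]
    refine ⟨T, fun j l hl => ⟨main j l hl, fun halg n => ?_⟩⟩
    rw [main j l hl (2 * n)]
    unfold evenPart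
    push_cast
    refine Finset.sum_congr rfl fun c _ => ?_
    rw [algebraic_order halg (c := 2 * n - 2 * c) ⟨n - c, by omega⟩ (hB j [] _) (hr j [] _)]

end Pool.Agent.D0H32.MC
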