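import Pool.Agent.D0H32.MC.Main

/-! The modular curves `X_0(N)`, and the family of all newforms. -/

set_option autoImplicit false

open Finset Filter Topology Complex Polynomial

namespace Pool.Agent.D0H32.MC

open Pool.Agent.Y149.PK (Variety IsEuler HasOrder size tens size_order VG evenPart)
open Pool.Agent.Y149.CM (LFun kunneth)

section
variable {ι : Type} (F : Newforms ι)

/-- the newforms of level `M` -/
def LS (m : ℕ → ι →₀ ℕ) (M : ℕ) : Finset ι := (m M).support.filter fun i => F.level i = M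

variable {F} {m : ℕ → ι →₀ ℕ}

theorem card_divisors_pos {k : ℕ} (hk : 0 < k) : 0 < k.divisors.card :=
  Finset.card_pos.2 ⟨1, Nat.one_mem_divisors.2 hk.ne'⟩

theorem mem_LS (hm : ∀ N, 0 < N → IsX0 F N (m N)) {M : ℕ} (hM : 0 < M) {i : ι} :
    i ∈ LS F m M ↔ F.level i = M := by
  unfold LS
  rw [Finset.mem_filter, Finsupp.mem_support_iff]
  refine ⟨fun h => h.2, fun h => ⟨?_, h⟩⟩
  rw [hm M hM i, h, if_pos dvd_rfl, Nat.div_self hM]
  simp

theorem card_LS (hm : ∀ N, 0 < N → IsX0 F N (m N)) {M : ℕ} (hM : 0 < M) :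
    (LS F m M).card = newCount F M := by
  unfold newCount
  exact (Nat.subtype_card (LS F m M) (fun i => mem_LS hm hM)).symm

theorem sum_levels (hm : ∀ N, 0 < N → IsX0 F N (m N)) {N : ℕ} (hN : 0 < N) (y : ι → ℝ) :
    ∑ i ∈ (m N).support, (m N i : ℝ) * y i =
      ∑ M ∈ N.divisors, ((N / M).divisors.card : ℝ) * ∑ i ∈ LS F m M, y i := by
  classical
  have h1 : ∀ i ∈ (m N).support, F.level i ∈ N.divisors := by
    intro i hi
    rw [Finsupp.mem_support_iff, hm N hN i] at hi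
    rw [Nat.mem_divisors]
    refine ⟨?_, hN.ne'⟩
    by_contra h
    rw [if_neg h] at hi
    exact hi rfl
  rw [← Finset.sum_fiberwise_of_maps_to h1]
  refine Finset.sum_congr rfl fun M hM => ?_
  have hM' := (Nat.mem_divisors.1 hM).1
  have hMpos : 0 < M := Nat.pos_of_mem_divisors hM
  have hq : 0 < N / M := Nat.div_pos (Nat.le_of_dvd hN hM') hMpos
  rw [Finset.mul_sum]
  have e1 : (m N).support.filter (fun i => F.level i = M) = LS F m M := by
    ext i
    rw [Finset.mem_filter, mem_LS hm hMpos, Finsupp.mem_support_iff]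
    refine ⟨fun h => h.2, fun h => ⟨?_, h⟩⟩
    rw [hm N hN i, h, if_pos hM']
    exact (card_divisors_pos hq).ne'
  rw [e1]
  refine Finset.sum_congr rfl fun i hi => ?_
  have h2 := (mem_LS hm hMpos).1 hi
  rw [hm N hN i, h2, if_pos hM']

variable (F) {Nb : ℕ → ℕ} {β : Nat.Primes → ℕ → Multiset ℂ} {n : ℕ} {q : ℝ}

/-- the size of the part of the newforms of level `M` -/
noncomputable def YM (Nb : ℕ → ℕ) (β : Nat.Primes → ℕ → Multiset ℂ) (m : ℕ → ι →₀ ℕ) (n M : ℕ)
    (ε : ℝ) : ℝ := ∑ i ∈ LS F m M, yy F Nb β n i ε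

/-- **The orders for all modular curves `X_0(N)`.** -/
theorem x0_orders (hβ : ∀ᶠ p in cofinite, VG Nb p (β p)) (hq : QZ Nb β n q)
    (hm : ∀ N, 0 < N → IsX0 F N (m N))
    {A : ℕ → Nat.Primes → ℂ[X]} (hA : ∀ c, IsEuler c (fun p => β p c) (A c))
    {B : ℕ → Nat.Primes → ℂ[X]}
    (hB : ∀ N, 0 < N → IsEuler n (fun p => kunneth (β p) (frobY F (m N) p) n) (B N))
    {r₀ : ℕ → ℤ} {r : ℕ → ℤ}
    (hr₀ : ∀ c, c = n ∨ c + 2 = n → HasOrder c (A c) (-(r₀ c)))
    (hr : ∀ N, 0 < N → HasOrder n (B N) (-(r N))) :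
    ∃ ν : ℕ → ℤ,
      (∀ N, 0 < N → r N = evenPart r₀ 1 n +
        ∑ M ∈ N.divisors, ((N / M).divisors.card : ℤ) * ν M) ∧
      (∀ M, newCount F M = 0 → ν M = 0) ∧
      ∀ J : Finset ℕ, (∑ M ∈ J, (max (ν M : ℝ) 0) ^ 2 / newCount F M ≤ q) ∧
        ∑ M ∈ J, (max (-(ν M : ℝ)) 0) ^ 2 / newCount F M ≤ q := by
  classical
  have hlim : ∀ N, 0 < N → Tendsto (fun ε => ∑ M ∈ N.divisors,
      ((N / M).divisors.card : ℝ) * YM F Nb β m n M ε) (𝓝[>] 0)
      (𝓝 ((r N - evenPart r₀ 1 n : ℤ) : ℝ)) := by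
    intro N hN
    have h1 := (excess_lim (hr N hN) hr₀).sub (link_product F hβ (hB N hN) hA).2.2
    rw [sub_zero] at h1
    refine h1.congr fun ε => ?_
    rw [sub_sub_cancel]
    exact sum_levels hm hN fun i => yy F Nb β n i ε
  have hex : ∀ M, 0 < M → ∃ ν : ℤ, Tendsto (YM F Nb β m n M) (𝓝[>] 0) (𝓝 (ν : ℝ)) := by
    intro M
    induction M using Nat.strong_induction_on with
    | _ M ih =>
      intro hM
      have h1 : ∀ D ∈ M.properDivisors, ∃ ν : ℤ,
          Tendsto (YM F Nb β m n D) (𝓝[>] 0) (𝓝 (ν : ℝ)) := by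
        intro D hD
        rw [Nat.mem_properDivisors] at hD
        exact ih D hD.2 (Nat.pos_of_dvd_of_pos hD.1 hM)
      choose! ν hν using h1
      refine ⟨(r M - evenPart r₀ 1 n) -
        ∑ D ∈ M.properDivisors, ((M / D).divisors.card : ℤ) * ν D, ?_⟩
      have h2 : Tendsto (fun ε => ∑ D ∈ M.properDivisors,
          ((M / D).divisors.card : ℝ) * YM F Nb β m n D ε) (𝓝[>] 0)
          (𝓝 (∑ D ∈ M.properDivisors, ((M / D).divisors.card : ℝ) * (ν D : ℝ))) :=
        tendsto_finsetSum _ fun D hD => (hν D hD).const_mul _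
      have h3 := (hlim M hM).sub h2
      push_cast
      push_cast at h3
      refine h3.congr fun ε => ?_
      rw [← Nat.insert_self_properDivisors hM.ne', Finset.sum_insert Nat.self_notMem_properDivisors,
        Nat.div_self hM]
      simp
  have hex' : ∀ M, ∃ ν : ℤ, (M = 0 → ν = 0) ∧
      (0 < M → Tendsto (YM F Nb β m n M) (𝓝[>] 0) (𝓝 (ν : ℝ))) := by
    intro M
    rcases Nat.eq_zero_or_pos M with h | h
    · exact ⟨0, fun _ => rfl, fun h' => absurd h (by omega)⟩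
    · obtain ⟨ν, hν⟩ := hex M h
      exact ⟨ν, fun h' => absurd h' (by omega), fun _ => hν⟩
  choose ν hν0 hν using hex'
  refine ⟨ν, fun N hN => ?_, fun M hM => ?_, fun J => ?_⟩
  · have h1 : Tendsto (fun ε => ∑ M ∈ N.divisors,
        ((N / M).divisors.card : ℝ) * YM F Nb β m n M ε) (𝓝[>] 0)
        (𝓝 (∑ M ∈ N.divisors, ((N / M).divisors.card : ℝ) * (ν M : ℝ))) :=
      tendsto_finsetSum _ fun M hM => (hν M (Nat.pos_of_mem_divisors hM)).const_mul _
    have h2 := tendsto_nhds_unique (hlim N hN) h1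
    have h3 : r N - evenPart r₀ 1 n = ∑ M ∈ N.divisors, ((N / M).divisors.card : ℤ) * ν M := by
      exact_mod_cast h2
    linarith
  · rcases Nat.eq_zero_or_pos M with h | h
    · exact hν0 M h
    · have h1 : LS F m M = ∅ := by
        rw [← Finset.card_eq_zero, card_LS hm h]
        exact hM
      have h2 : YM F Nb β m n M = fun _ => 0 := by
        funext ε
        unfold YM
        rw [h1, Finset.sum_empty]
      have h3 := hν M h
      rw [h2] at h3
      exact_mod_cast (tendsto_nhds_unique h3 tendsto_const_nhds)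
  · have key : ∀ s : ℝ, (s = 1 ∨ s = -1) →
        ∑ M ∈ J, (max (s * (ν M : ℝ)) 0) ^ 2 / newCount F M ≤ q := by
      intro s hs
      have hsub : ∑ M ∈ J, (max (s * (ν M : ℝ)) 0) ^ 2 / newCount F M =
          ∑ M ∈ J.filter (fun M => 0 < M), (max (s * (ν M : ℝ)) 0) ^ 2 / newCount F M := by
        refine (Finset.sum_filter_of_ne fun M _ hne => ?_).symm
        by_contra h
        apply hne
        rw [hν0 M (by omega)]
        simp
      rw [hsub]
      refine le_of_forall_pos_le_add fun η hη => ?_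
      have hb := bessel_blocks F hq (LS F m) (fun _ _ => 1) (fun _ _ _ => zero_le_one)
        (J.filter fun M => 0 < M) (fun a ha b hb hab => by
          rw [Finset.disjoint_left]
          intro i hi hi'
          have h1 := (mem_LS hm (Finset.mem_filter.1 ha).2).1 hi
          have h2 := (mem_LS hm (Finset.mem_filter.1 hb).2).1 hi'
          exact hab (h1.symm.trans h2)) hs hη
      refine le_of_tendsto (f := fun ε => ∑ M ∈ J.filter (fun M => 0 < M),
        (max (s * YM F Nb β m n M ε) 0) ^ 2 / newCount F M) (tendsto_finsetSum _ fun M hM => ?_)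
        (hb.mono fun ε g => ?_)
      · exact ((((hν M (Finset.mem_filter.1 hM).2).const_mul s).max
          tendsto_const_nhds).pow 2).div_const _
      · refine le_of_eq_of_le (Finset.sum_congr rfl fun M hM => ?_) g
        unfold YM
        simp only [one_mul, one_pow, Finset.sum_const, nsmul_eq_mul, mul_one]
        rw [card_LS hm (Finset.mem_filter.1 hM).2]
    have h1 := key 1 (Or.inl rfl)
    have h2 := key (-1) (Or.inr rfl)
    simp only [one_mul] at h1
    simp only [neg_one_mul] at h2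
    exact ⟨h1, h2⟩

/-- **All newforms.** -/
theorem all_newforms (X : Variety) {q : ℕ} (hq : SelfBound X n q) {A : ℕ → Nat.Primes → ℂ[X]}
    (hA : IsBase X A)
    (hex : ∀ i, ∃ (B : Nat.Primes → ℂ[X]) (r : ℤ), IsTwist X F i n B ∧
      HasOrder (n + 1) B (-r)) :
    ∃ ρ : ι → ℤ, {i | ρ i ≠ 0}.Finite ∧ {i | ρ i ≠ 0}.ncard ≤ 2 * q ∧
      (∀ J : Finset ι, (∑ i ∈ J, (max (ρ i) 0) ^ 2 ≤ q) ∧ ∑ i ∈ J, (max (-ρ i) 0) ^ 2 ≤ q) ∧
      (∀ (i : ι) (B : Nat.Primes → ℂ[X]) (r : ℤ), IsTwist X F i n B →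
        HasOrder (n + 1) B (-r) → r = ρ i) ∧
      ∀ (m : ι →₀ ℕ) (B : Nat.Primes → ℂ[X]), IsProduct X F m (n + 1) B →
        Tendsto (excess (n + 1) B A) (𝓝[>] 0) (𝓝 ((m.sum fun i k => (k : ℤ) * ρ i : ℤ) : ℝ)) ∧
        ∀ (r : ℤ) (r₀ : ℕ → ℤ), HasOrder (n + 1) B (-r) →
          (∀ c, c = n + 1 ∨ c + 2 = n + 1 → HasOrder c (A c) (-(r₀ c))) →
          r = evenPart r₀ 1 (n + 1) + m.sum fun i k => (k : ℤ) * ρ i := by
  classical
  have hQ : QZ X.betti X.frob (n + 1) q := QB_self X hq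
  choose B ρ hB hρ using hex
  have hlim : ∀ i, Tendsto (yy F X.betti X.frob (n + 1) i) (𝓝[>] 0) (𝓝 (ρ i : ℝ)) := by
    intro i
    have h1 := (size_order (hρ i)).sub (link_twist F X (hB i)).2
    rw [sub_zero] at h1
    exact h1.congr fun ε => by ring
  have key : ∀ s : ℤ, (s = 1 ∨ s = -1) → ∀ J : Finset ι,
      ∑ i ∈ J, (max (s * ρ i) 0) ^ 2 ≤ (q : ℤ) := by
    intro s hs J
    have h1 : ∑ i ∈ J, (max ((s : ℝ) * (ρ i : ℝ)) 0) ^ 2 ≤ (q : ℝ) := by
      refine le_of_forall_pos_le_add fun η hη => ?_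
      refine le_of_tendsto
        (f := fun ε => ∑ i ∈ J, (max ((s : ℝ) * yy F X.betti X.frob (n + 1) i ε) 0) ^ 2)
        (tendsto_finsetSum _ fun i _ => ?_) (bessel_yy F hQ J (by
          rcases hs with rfl | rfl
          · left; norm_num
          · right; norm_num) hη)
      exact (((hlim i).const_mul (s : ℝ)).max tendsto_const_nhds).pow 2
    have h2 : ((∑ i ∈ J, (max (s * ρ i) 0) ^ 2 : ℤ) : ℝ) ≤ ((q : ℤ) : ℝ) := by
      push_cast
      exact h1
    exact_mod_cast h2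
  have k1 : ∀ J : Finset ι, ∑ i ∈ J, (max (ρ i) 0) ^ 2 ≤ (q : ℤ) := fun J => by
    have := key 1 (Or.inl rfl) J
    simpa using this
  have k2 : ∀ J : Finset ι, ∑ i ∈ J, (max (-ρ i) 0) ^ 2 ≤ (q : ℤ) := fun J => by
    have := key (-1) (Or.inr rfl) J
    simpa using this
  obtain ⟨f1, c1⟩ := Pool.Agent.Y722.EP.card_of_sum (f := ρ) (M := q) k1
  obtain ⟨f2, c2⟩ := Pool.Agent.Y722.EP.card_of_sum (f := fun i => -ρ i) (M := q) k2
  have hsub : {i | ρ i ≠ 0} ⊆ {i | 0 < ρ i} ∪ {i | 0 < -ρ i} := by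
    intro i hi
    have hi' : ρ i ≠ 0 := hi
    rcases lt_or_gt_of_ne hi' with h | h
    · exact Or.inr (by show 0 < -ρ i; omega)
    · exact Or.inl h
  refine ⟨ρ, (f1.union f2).subset hsub, ?_, fun J => ⟨k1 J, k2 J⟩, fun i B' r hB' hr => ?_,
    fun m B' hB' => ?_⟩
  · have h3 := Set.ncard_le_ncard hsub (f1.union f2)
    have h4 := Set.ncard_union_le {i | 0 < ρ i} {i | 0 < -ρ i}
    omega
  · have h1 := (size_order hr).sub (link_twist F X hB').2
    rw [sub_zero] at h1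
    have h2 : Tendsto (yy F X.betti X.frob (n + 1) i) (𝓝[>] 0) (𝓝 (r : ℝ)) :=
      h1.congr fun ε => by ring
    exact_mod_cast tendsto_nhds_unique h2 (hlim i)
  · have h1 : Tendsto (excess (n + 1) B' A) (𝓝[>] 0)
        (𝓝 ((m.sum fun i k => (k : ℤ) * ρ i : ℤ) : ℝ)) := by
      have h2 : Tendsto (fun ε => ∑ i ∈ m.support,
          (m i : ℝ) * yy F X.betti X.frob (n + 1) i ε) (𝓝[>] 0)
          (𝓝 (∑ i ∈ m.support, (m i : ℝ) * (ρ i : ℝ))) :=
        tendsto_finsetSum _ fun i _ => (hlim i).const_mul _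
      have h3 := (link_product F (X_VG X) hB' hA).2.2.add h2
      rw [zero_add] at h3
      have e : ((m.sum fun i k => (k : ℤ) * ρ i : ℤ) : ℝ) =
          ∑ i ∈ m.support, (m i : ℝ) * (ρ i : ℝ) := by
        unfold Finsupp.sum
        push_cast
        rfl
      rw [e]
      exact h3.congr fun ε => by ring
    refine ⟨h1, fun r r₀ hr hr₀ => ?_⟩
    have h2 := tendsto_nhds_unique (excess_lim hr hr₀) h1
    have h3 : r - evenPart r₀ 1 (n + 1) = m.sum fun i k => (k : ℤ) * ρ i := by exact_mod_cast h2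
    linarith

end

end Pool.Agent.D0H32.MC
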